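import Mathlib

set_option autoImplicit false

open Finset MvPolynomial

namespace Pool.Agent.Results.MP_96e433_lc.FewMonomials

/-- Polynomials over `F` in the variables `x e` and their twins `xbar e`, where `e = (i, j)`
ranges over the pairs of a pigeon `i` and a hole `j`. -/
abbrev Poly (F : Type*) [CommRing F] (m n : ℕ) : Type _ :=
  MvPolynomial ((Fin m × Fin n) × Bool) F

section Defs

variable (F : Type*) [Field F] (m n : ℕ)

/-- The variable `x_{ij}`, `e = (i, j)`. -/
noncomputable def x (e : Fin m × Fin n) : Poly F m n := X (e, true)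

/-- The twin variable of `x_{ij}`, `e = (i, j)`. -/
noncomputable def xbar (e : Fin m × Fin n) : Poly F m n := X (e, false)

/-- The ideal `I` generated by the Boolean axioms. -/
noncomputable def boolIdeal : Ideal (Poly F m n) :=
  Ideal.span {p | ∃ e, p = x F m n e ^ 2 - x F m n e ∨ p = x F m n e + xbar F m n e - 1}

/-- The encodings of the clauses of `fPHP`: injectivity, functionality and totality. -/
def fPHP : Set (Poly F m n) :=
  {p | ∃ i i' j, i ≠ i' ∧ p = x F m n (i, j) * x F m n (i', j)} ∪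
  {p | ∃ i j j', j ≠ j' ∧ p = x F m n (i, j) * x F m n (i, j')} ∪
  {p | ∃ i, p = ∏ j, xbar F m n (i, j)}

variable {F m n}

/-- A semantic polynomial calculus refutation `M 0, …, M l` of `P` over the ideal `J`. -/
structure IsRefutation (J : Ideal (Poly F m n)) (P : Set (Poly F m n)) (l : ℕ)
    (M : ℕ → Finset (Poly F m n)) : Prop where
  zero : M 0 = ∅
  one_mem : 1 ∈ M l
  step : ∀ t < l, ∃ p ∈ P ∪ {0}, ∀ q ∈ M (t + 1),
    q ∈ Ideal.span (M t : Set (Poly F m n)) ⊔ J ⊔ Ideal.span {p}

open Classical in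
/-- The distinct monomials which occur in the polynomials of a configuration. -/
noncomputable def monos (C : Finset (Poly F m n)) : Finset (((Fin m × Fin n) × Bool) →₀ ℕ) :=
  C.biUnion fun p => p.support

/-- The monomial space of `M 0, …, M l`. -/
noncomputable def MSp (l : ℕ) (M : ℕ → Finset (Poly F m n)) : ℕ :=
  (range (l + 1)).sup fun t => (monos (M t)).card

/-- `μ` is a partial matching: two of its edges which share the pigeon or the hole are equal. -/
def IsPartialMatching (μ : Finset (Fin m × Fin n)) : Prop :=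
  ∀ e ∈ μ, ∀ f ∈ μ, (e.1 = f.1 ∨ e.2 = f.2) → e = f

variable (F) in
/-- The 0-1 point of `μ`: `x e = 1` and `xbar e = 0` for `e ∈ μ`, `x e = 0` and `xbar e = 1` for
`e ∉ μ`. -/
def point (μ : Finset (Fin m × Fin n)) : (Fin m × Fin n) × Bool → F :=
  fun v => if (decide (v.1 ∈ μ)) = v.2 then 1 else 0

variable (F m n)

/-- The ideal of all polynomials which vanish at all partial matchings. -/
noncomputable def matchIdeal : Ideal (Poly F m n) :=
  ⨅ (μ : Finset (Fin m × Fin n)) (_ : IsPartialMatching μ), RingHom.ker (eval (point F μ))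

/-- The polynomials `p` for which there is a pigeon `i` such that `p` vanishes at all partial
matchings which match `i`. -/
def pigeonAxioms : Set (Poly F m n) :=
  {p | ∃ i : Fin m, ∀ μ : Finset (Fin m × Fin n), IsPartialMatching μ → (∃ j, (i, j) ∈ μ) →
      eval (point F μ) p = 0}

variable {m n}

open Classical in
/-- The edges `e` such that the variable `x e` occurs in the monomial `d`. -/
noncomputable def plus (d : ((Fin m × Fin n) × Bool) →₀ ℕ) : Finset (Fin m × Fin n) :=
  univ.filter fun e => d (e, true) ≠ 0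

open Classical in
/-- The edges `e` such that the variable `xbar e` occurs in the monomial `d`. -/
noncomputable def minus (d : ((Fin m × Fin n) × Bool) →₀ ℕ) : Finset (Fin m × Fin n) :=
  univ.filter fun e => d (e, false) ≠ 0

variable {F} in
open Classical in
/-- The distinct monomials of `M 0, …, M l` with at least `q` variables of the form `x e` or at
least `64 m q` variables of the form `xbar e`. -/
noncomputable def long (q l : ℕ) (M : ℕ → Finset (Poly F m n)) :
    Finset (((Fin m × Fin n) × Bool) →₀ ℕ) :=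
  ((range (l + 1)).biUnion fun t => monos (M t)).filter fun d =>
    q ≤ (plus d).card ∨ 64 * m * q ≤ (minus d).card

end Defs

section Nibble

variable {m n : ℕ}

/-- The pigeon `i` is not matched by `β`. -/
def FreePigeon (β : Finset (Fin m × Fin n)) (i : Fin m) : Prop := ∀ j, (i, j) ∉ β

/-- The hole `j` is not matched by `β`. -/
def FreeHole (β : Finset (Fin m × Fin n)) (j : Fin n) : Prop := ∀ i, (i, j) ∉ β

open Classical in
/-- The edges of `C` at free pigeons and in the slots from `a` on. -/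
noncomputable def Yc (a : ℕ) (β C : Finset (Fin m × Fin n)) : ℕ :=
  (C.filter fun e => a ≤ e.2.val / 2 ∧ FreePigeon β e.1).card

open Classical in
noncomputable def zc (a : ℕ) (β C : Finset (Fin m × Fin n)) (i : Fin m) : ℕ :=
  (C.filter fun e => (a ≤ e.2.val / 2 ∧ FreePigeon β e.1) ∧ e.1 = i).card

open Classical in
noncomputable def phi (u : ℝ) (a : ℕ) (β C : Finset (Fin m × Fin n)) : ℝ :=
  if ∃ e ∈ β, e ∈ C then 0 else u ^ Yc a β C

/-- The hole of the slot `a` and the coin `b`. -/
def hol (a : ℕ) (b : Bool) : ℕ := 2 * a + (if b = true then 1 else 0)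

open Classical in
noncomputable def addE (a : ℕ) (β : Finset (Fin m × Fin n)) (p : Fin m × Bool) :
    Finset (Fin m × Fin n) :=
  if h : hol a p.2 < n ∧ FreePigeon β p.1 then insert (p.1, ⟨hol a p.2, h.1⟩) β else β

open Classical in
noncomputable def kc (a : ℕ) (β C : Finset (Fin m × Fin n)) (p : Fin m × Bool) : ℝ :=
  if ∃ h : hol a p.2 < n, FreePigeon β p.1 ∧ (p.1, (⟨hol a p.2, h⟩ : Fin n)) ∈ C then 1 else 0

theorem free_insert {β : Finset (Fin m × Fin n)} {i i' : Fin m} {j : Fin n} :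
    FreePigeon (insert (i, j) β) i' ↔ FreePigeon β i' ∧ i' ≠ i := by
  classical
  unfold FreePigeon
  constructor
  · intro h
    refine ⟨fun j' hj' => h j' (mem_insert_of_mem hj'), ?_⟩
    rintro rfl
    exact h j (mem_insert_self _ _)
  · rintro ⟨h1, h2⟩ j' hj'
    rw [mem_insert] at hj'
    rcases hj' with hj' | hj'
    · exact h2 (Prod.mk.inj hj').1
    · exact h1 j' hj'

theorem Yc_insert (a : ℕ) (β C : Finset (Fin m × Fin n)) (i : Fin m) (j : Fin n) :
    Yc a (insert (i, j) β) C + zc a β C i = Yc a β C := by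
  classical
  have h := card_filter_add_card_filter_not
    (s := C.filter fun e => a ≤ e.2.val / 2 ∧ FreePigeon β e.1) (p := fun e => e.1 = i)
  rw [filter_filter, filter_filter] at h
  have h1 : Yc a (insert (i, j) β) C =
      (C.filter fun e => (a ≤ e.2.val / 2 ∧ FreePigeon β e.1) ∧ ¬ e.1 = i).card := by
    unfold Yc
    congr 1
    refine filter_congr fun e _ => ?_
    rw [free_insert]
    tauto
  unfold zc
  rw [h1]
  unfold Yc
  omega

theorem zc_le (a : ℕ) (β C : Finset (Fin m × Fin n)) (i : Fin m) : zc a β C i ≤ Yc a β C := by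
  classical
  unfold zc Yc
  refine card_le_card ?_
  intro e he
  rw [mem_filter] at *
  exact ⟨he.1, he.2.1⟩

theorem zc_le_n (a : ℕ) (β C : Finset (Fin m × Fin n)) (i : Fin m) : zc a β C i ≤ n := by
  classical
  unfold zc
  have h : (C.filter fun e => (a ≤ e.2.val / 2 ∧ FreePigeon β e.1) ∧ e.1 = i).card ≤
      (univ : Finset (Fin n)).card := by
    refine card_le_card_of_injOn Prod.snd (fun _ _ => mem_coe.2 (mem_univ _)) ?_
    intro e he f hf hef
    rw [mem_coe, mem_filter] at he hf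
    exact Prod.ext (he.2.2.trans hf.2.2.symm) hef
  rwa [card_univ, Fintype.card_fin] at h

theorem sum_zc (a : ℕ) (β C : Finset (Fin m × Fin n)) : ∑ i, zc a β C i = Yc a β C := by
  classical
  unfold zc Yc
  rw [card_eq_sum_card_fiberwise (f := Prod.fst) (t := univ) (fun _ _ => mem_coe.2 (mem_univ _))]
  refine sum_congr rfl fun i _ => ?_
  rw [filter_filter]

theorem sum_kc (a : ℕ) (β C : Finset (Fin m × Fin n)) :
    (Yc a β C : ℝ) ≤ Yc (a + 1) β C + ∑ p, kc a β C p := by
  classical
  have h1 : Yc a β C = Yc (a + 1) β C +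
      (C.filter fun e => (a ≤ e.2.val / 2 ∧ FreePigeon β e.1) ∧ ¬ (a + 1 ≤ e.2.val / 2)).card := by
    have h := card_filter_add_card_filter_not
      (s := C.filter fun e => a ≤ e.2.val / 2 ∧ FreePigeon β e.1)
      (p := fun e => a + 1 ≤ e.2.val / 2)
    rw [filter_filter, filter_filter] at h
    have h2 : Yc (a + 1) β C = (C.filter fun e => (a ≤ e.2.val / 2 ∧ FreePigeon β e.1) ∧
        (a + 1 ≤ e.2.val / 2)).card := by
      unfold Yc
      congr 1
      refine filter_congr fun e _ => ?_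
      constructor
      · rintro ⟨h3, h4⟩
        exact ⟨⟨by omega, h4⟩, h3⟩
      · rintro ⟨⟨h3, h4⟩, h5⟩
        exact ⟨h5, h4⟩
    rw [h2]
    unfold Yc
    omega
  have h2 : ∑ p, kc a β C p = ((univ.filter fun p : Fin m × Bool =>
      ∃ h : hol a p.2 < n, FreePigeon β p.1 ∧ (p.1, (⟨hol a p.2, h⟩ : Fin n)) ∈ C).card : ℝ) := by
    unfold kc
    rw [sum_boole]
  have h3 : (C.filter fun e => (a ≤ e.2.val / 2 ∧ FreePigeon β e.1) ∧
      ¬ (a + 1 ≤ e.2.val / 2)).card ≤ (univ.filter fun p : Fin m × Bool =>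
      ∃ h : hol a p.2 < n, FreePigeon β p.1 ∧ (p.1, (⟨hol a p.2, h⟩ : Fin n)) ∈ C).card := by
    refine card_le_card_of_injOn (fun e => (e.1, decide (e.2.val % 2 = 1))) ?_ ?_
    · intro e he
      rw [mem_coe, mem_filter] at he
      rw [mem_coe, mem_filter]
      have hh : hol a (decide (e.2.val % 2 = 1)) = e.2.val := by
        unfold hol
        by_cases h4 : e.2.val % 2 = 1
        · simp only [h4, decide_true, if_true]
          omega
        · simp only [h4, decide_false]
          simp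
          omega
      refine ⟨mem_univ _, ?_⟩
      simp only
      refine ⟨by rw [hh]; exact e.2.isLt, he.2.1.2, ?_⟩
      have h5 : (⟨hol a (decide (e.2.val % 2 = 1)), by rw [hh]; exact e.2.isLt⟩ : Fin n) = e.2 :=
        Fin.ext hh
      rw [h5]
      exact he.1
    · intro e he f hf hef
      rw [mem_coe, mem_filter] at he hf
      simp only [Prod.mk.injEq] at hef
      have h4 : e.2.val % 2 = 1 ↔ f.2.val % 2 = 1 := by simpa using hef.2
      refine Prod.ext hef.1 (Fin.ext ?_)
      omega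
  rw [h2, h1]
  push_cast
  have h4 : (((C.filter fun e => (a ≤ e.2.val / 2 ∧ FreePigeon β e.1) ∧
      ¬ (a + 1 ≤ e.2.val / 2)).card : ℕ) : ℝ) ≤ ((univ.filter fun p : Fin m × Bool =>
      ∃ h : hol a p.2 < n, FreePigeon β p.1 ∧ (p.1, (⟨hol a p.2, h⟩ : Fin n)) ∈ C).card : ℕ) := by
    exact_mod_cast h3
  linarith

theorem phi_le {u : ℝ} (hu0 : 0 < u) (hu1 : u ≤ 1) (a : ℕ) (β C : Finset (Fin m × Fin n))
    (hk : ¬ ∃ e ∈ β, e ∈ C) (p : Fin m × Bool) :
    phi u (a + 1) (addE a β p) C ≤ u ^ Yc (a + 1) β C * (1 - kc a β C p) +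
      (u ^ (Yc (a + 1) β C - zc (a + 1) β C p.1) - u ^ Yc (a + 1) β C) := by
  classical
  have hmono : u ^ Yc (a + 1) β C ≤ u ^ (Yc (a + 1) β C - zc (a + 1) β C p.1) :=
    pow_le_pow_of_le_one hu0.le hu1 (Nat.sub_le _ _)
  by_cases h : hol a p.2 < n ∧ FreePigeon β p.1
  · unfold addE
    rw [dif_pos h]
    by_cases hC : (p.1, (⟨hol a p.2, h.1⟩ : Fin n)) ∈ C
    · have h1 : kc a β C p = 1 := by
        unfold kc
        rw [if_pos ⟨h.1, h.2, hC⟩]
      have h2 : phi u (a + 1) (insert (p.1, (⟨hol a p.2, h.1⟩ : Fin n)) β) C = 0 := by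
        unfold phi
        rw [if_pos ⟨_, mem_insert_self _ _, hC⟩]
      rw [h1, h2]
      linarith
    · have h1 : kc a β C p = 0 := by
        unfold kc
        rw [if_neg]
        rintro ⟨h2, _, h4⟩
        exact hC h4
      have h2 : phi u (a + 1) (insert (p.1, (⟨hol a p.2, h.1⟩ : Fin n)) β) C =
          u ^ (Yc (a + 1) β C - zc (a + 1) β C p.1) := by
        unfold phi
        rw [if_neg]
        · have h3 := Yc_insert (a + 1) β C p.1 (⟨hol a p.2, h.1⟩ : Fin n)
          congr 1
          omega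
        · rintro ⟨e, he, heC⟩
          rw [mem_insert] at he
          rcases he with rfl | he
          · exact hC heC
          · exact hk ⟨e, he, heC⟩
      rw [h1, h2]
      linarith
  · unfold addE
    rw [dif_neg h]
    have h1 : kc a β C p = 0 := by
      unfold kc
      rw [if_neg]
      rintro ⟨h2, h3, _⟩
      exact h ⟨h2, h3⟩
    have h2 : phi u (a + 1) β C = u ^ Yc (a + 1) β C := by
      unfold phi
      rw [if_neg hk]
    rw [h1, h2]
    linarith

theorem step_one (hmn : n < m) {D : ℕ} (a : ℕ) (β C : Finset (Fin m × Fin n)) (hC : C.card ≤ D) :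
    ∑ p, phi (1 - 1 / (16 * m)) (a + 1) (addE a β p) C ≤
      2 * m * ((1 + D / (12 * m ^ 2)) * phi (1 - 1 / (16 * m)) a β C) := by
  classical
  have hm : (0 : ℝ) < m := by exact_mod_cast (by omega : 0 < m)
  have hm1 : (1 : ℝ) ≤ m := by exact_mod_cast (by omega : 1 ≤ m)
  set x : ℝ := 1 / (16 * m) with hx
  have hx0 : 0 < x := by positivity
  have hxm : x * m = 1 / 16 := by rw [hx]; field_simp
  have hx1 : x ≤ 1 / 16 := by
    rw [hx]
    exact one_div_le_one_div_of_le (by norm_num) (by linarith)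
  set u : ℝ := 1 - x with hu
  have hu0 : 0 < u := by rw [hu]; linarith
  have hu1 : u ≤ 1 := by rw [hu]; linarith
  have bern : ∀ k : ℕ, 1 - k * x ≤ u ^ k := by
    intro k
    have h := one_add_mul_le_pow (a := -x) (by linarith) k
    have e : (1 : ℝ) + -x = u := by rw [hu]; ring
    rw [e] at h
    linarith
  by_cases hk : ∃ e ∈ β, e ∈ C
  · have h1 : ∀ p, phi u (a + 1) (addE a β p) C = 0 := by
      intro p
      unfold phi
      rw [if_pos]
      obtain ⟨e, he, heC⟩ := hk
      refine ⟨e, ?_, heC⟩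
      unfold addE
      split_ifs
      · exact mem_insert_of_mem he
      · exact he
    have h2 : phi u a β C = 0 := by unfold phi; rw [if_pos hk]
    rw [h2, sum_congr rfl fun p _ => h1 p]
    simp
  have hphi : phi u a β C = u ^ Yc a β C := by unfold phi; rw [if_neg hk]
  rw [hphi]
  refine (sum_le_sum fun p _ => phi_le hu0 hu1 a β C hk p).trans ?_
  set Y' := Yc (a + 1) β C with hY'
  have hUp : 0 < u ^ Y' := pow_pos hu0 _
  -- the removal of rows
  have hrow : ∀ i, u ^ (Y' - zc (a + 1) β C i) - u ^ Y' ≤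
      u ^ Y' * (16 / 15 * x * zc (a + 1) β C i) := by
    intro i
    set z := zc (a + 1) β C i with hz
    have hzY : z ≤ Y' := zc_le _ _ _ _
    have hzn : (z : ℝ) ≤ m := by
      have := zc_le_n (a + 1) β C i
      exact_mod_cast (by omega : z ≤ m)
    have h1 : u ^ Y' = u ^ (Y' - z) * u ^ z := by
      rw [← pow_add]
      congr 1
      omega
    have h2 := bern z
    have h3 : (z : ℝ) * x ≤ 1 / 16 := by
      calc (z : ℝ) * x ≤ m * x := mul_le_mul_of_nonneg_right hzn hx0.le
        _ = 1 / 16 := by rw [mul_comm]; exact hxm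
    have h4 : (0 : ℝ) ≤ z * x := by positivity
    have h5 : 1 - u ^ z ≤ u ^ z * (16 / 15 * x * z) := by nlinarith
    have h6 : 0 < u ^ (Y' - z) := pow_pos hu0 _
    rw [h1]
    nlinarith
  have hsplit : ∑ p : Fin m × Bool, (u ^ Y' * (1 - kc a β C p) +
      (u ^ (Y' - zc (a + 1) β C p.1) - u ^ Y')) ≤
      u ^ Y' * (2 * m - ∑ p, kc a β C p) + 2 * (u ^ Y' * (16 / 15 * x * Y')) := by
    rw [sum_add_distrib]
    have h1 : ∑ p : Fin m × Bool, u ^ Y' * (1 - kc a β C p) =
        u ^ Y' * (2 * m - ∑ p, kc a β C p) := by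
      rw [← mul_sum, sum_sub_distrib]
      congr 2
      simp [Fintype.card_prod]
      ring
    have h2 : ∑ p : Fin m × Bool, (u ^ (Y' - zc (a + 1) β C p.1) - u ^ Y') ≤
        2 * (u ^ Y' * (16 / 15 * x * Y')) := by
      rw [Fintype.sum_prod_type]
      have h3 : ∀ i : Fin m, ∑ _b : Bool, (u ^ (Y' - zc (a + 1) β C i) - u ^ Y') =
          2 * (u ^ (Y' - zc (a + 1) β C i) - u ^ Y') := by
        intro i
        simp
        ring
      rw [sum_congr rfl fun i _ => h3 i, ← mul_sum]
      refine mul_le_mul_of_nonneg_left ?_ (by norm_num)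
      refine (sum_le_sum fun i _ => hrow i).trans ?_
      rw [← mul_sum, ← mul_sum]
      have h4 : ∑ i, (zc (a + 1) β C i : ℝ) = Y' := by
        have := sum_zc (a + 1) β C
        rw [hY', ← this]
        push_cast
        rfl
      rw [h4]
    rw [h1]
    linarith
  refine hsplit.trans ?_
  -- the slot
  have hK := sum_kc a β C
  rw [← hY'] at hK
  set K := ∑ p, kc a β C p with hKdef
  have hYa : Y' ≤ Yc a β C := by
    rw [hY']
    unfold Yc
    refine card_le_card ?_
    intro e he
    rw [mem_filter] at *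
    exact ⟨he.1, by omega, he.2.2⟩
  obtain ⟨y, hy⟩ : ∃ y, Yc a β C = Y' + y := ⟨Yc a β C - Y', by omega⟩
  rw [hy, pow_add]
  rw [hy] at hK
  push_cast at hK
  have hyK : (y : ℝ) ≤ K := by linarith
  have hK2 : K ≤ 2 * m := by
    rw [hKdef]
    have h1 : ∑ p : Fin m × Bool, kc a β C p ≤ ∑ _p : Fin m × Bool, (1 : ℝ) := by
      refine sum_le_sum fun p _ => ?_
      unfold kc
      split_ifs <;> norm_num
    refine h1.trans (le_of_eq ?_)
    simp [Fintype.card_prod]
    ring
  have hYD : (Y' : ℝ) ≤ D := by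
    have h1 : Y' ≤ C.card := by
      rw [hY']
      unfold Yc
      exact card_filter_le _ _
    exact_mod_cast h1.trans hC
  have hby := bern y
  have hD0 : (0 : ℝ) ≤ D := Nat.cast_nonneg _
  have hγ : (0 : ℝ) ≤ D / (12 * m ^ 2) := by positivity
  have hyx : (y : ℝ) * x ≤ 1 / 8 := by
    calc (y : ℝ) * x ≤ (2 * m) * x := mul_le_mul_of_nonneg_right (by linarith) hx0.le
      _ = 2 * (x * m) := by ring
      _ = 1 / 8 := by rw [hxm]; norm_num
  have hmx : 2 * (m : ℝ) * (y * x) = y / 8 := by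
    calc 2 * (m : ℝ) * (y * x) = 2 * y * (x * m) := by ring
      _ = y / 8 := by rw [hxm]; ring
  have hy0 : (0 : ℝ) ≤ y := Nat.cast_nonneg _
  have hgm : 2 * (m : ℝ) * (D / (12 * m ^ 2)) = D / (6 * m) := by
    field_simp
    ring
  have hxD : x * D = D / (16 * m) := by rw [hx]; ring
  -- it remains: 2m - K + (32/15) x Y' ≤ 2m (1 + g) u^y
  have key : 2 * m - K + 2 * (16 / 15 * x * Y') ≤ 2 * m * ((1 + D / (12 * m ^ 2)) * u ^ y) := by
    have h1 : 2 * m * ((1 + D / (12 * m ^ 2)) * (1 - y * x)) ≤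
        2 * m * ((1 + D / (12 * m ^ 2)) * u ^ y) := by
      refine mul_le_mul_of_nonneg_left ?_ (by positivity)
      exact mul_le_mul_of_nonneg_left hby (by positivity)
    refine le_trans ?_ h1
    have h2 : 2 * m * ((1 + D / (12 * m ^ 2)) * (1 - y * x)) =
        2 * m - y / 8 + D / (6 * m) * (1 - y * x) := by
      rw [← hmx, ← hgm]
      ring
    rw [h2]
    have h3 : D / (6 * m) * (7 / 8) ≤ D / (6 * m) * (1 - (y : ℝ) * x) :=
      mul_le_mul_of_nonneg_left (by linarith) (by positivity)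
    have h4 : x * Y' ≤ D / (16 * m) := by
      rw [← hxD]
      exact mul_le_mul_of_nonneg_left hYD hx0.le
    have h5 : 32 / 15 * ((D : ℝ) / (16 * m)) ≤ D / (6 * m) * (7 / 8) := by
      have h6 : (D : ℝ) / (16 * m) = D / m * (1 / 16) := by ring
      have h7 : (D : ℝ) / (6 * m) = D / m * (1 / 6) := by ring
      rw [h6, h7]
      have h8 : (0 : ℝ) ≤ D / m := by positivity
      nlinarith
    nlinarith
  calc u ^ Y' * (2 * m - K) + 2 * (u ^ Y' * (16 / 15 * x * Y'))
      = u ^ Y' * (2 * m - K + 2 * (16 / 15 * x * Y')) := by ring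
    _ ≤ u ^ Y' * (2 * m * ((1 + D / (12 * m ^ 2)) * u ^ y)) :=
        mul_le_mul_of_nonneg_left key hUp.le
    _ = 2 * m * ((1 + D / (12 * m ^ 2)) * (u ^ Y' * u ^ y)) := by ring

theorem step_all (hmn : n < m) {δ : Type*} (V : Finset δ) (C : δ → Finset (Fin m × Fin n)) {D : ℕ}
    (hC : ∀ d ∈ V, (C d).card ≤ D) (a : ℕ) (β : Finset (Fin m × Fin n)) :
    ∃ p, ∑ d ∈ V, phi (1 - 1 / (16 * m)) (a + 1) (addE a β p) (C d) ≤
      (1 + D / (12 * m ^ 2)) * ∑ d ∈ V, phi (1 - 1 / (16 * m)) a β (C d) := by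
  classical
  have hm : (0 : ℝ) < m := by exact_mod_cast (by omega : 0 < m)
  have h1 : ∑ p : Fin m × Bool, ∑ d ∈ V,
      phi (1 - 1 / (16 * m)) (a + 1) (addE a β p) (C d) ≤
      ∑ _p : Fin m × Bool, (1 + D / (12 * (m : ℝ) ^ 2)) *
        ∑ d ∈ V, phi (1 - 1 / (16 * m)) a β (C d) := by
    rw [sum_comm]
    refine (sum_le_sum fun d hd => step_one hmn a β (C d) (hC d hd)).trans (le_of_eq ?_)
    rw [sum_const, card_univ, Fintype.card_prod, Fintype.card_bool, Fintype.card_fin,
      nsmul_eq_mul, ← mul_sum, ← mul_sum]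
    push_cast
    ring
  have : Nonempty (Fin m × Bool) := ⟨⟨⟨0, by omega⟩, true⟩⟩
  obtain ⟨p, _, hp⟩ := exists_le_of_sum_le (univ_nonempty (α := Fin m × Bool)) h1
  exact ⟨p, hp⟩

/-- The invariant of the construction: the base matching uses at most one hole of each slot before
`a`. -/
structure Slots (a : ℕ) (β : Finset (Fin m × Fin n)) : Prop where
  pm : IsPartialMatching β
  lt : ∀ e ∈ β, e.2.val / 2 < a
  one : ∀ e ∈ β, ∀ f ∈ β, e.2.val / 2 = f.2.val / 2 → e = f

theorem hol_div (a : ℕ) (b : Bool) : hol a b / 2 = a := by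
  unfold hol
  split_ifs <;> omega

theorem Slots.step {a : ℕ} {β : Finset (Fin m × Fin n)} (h : Slots a β) (p : Fin m × Bool) :
    Slots (a + 1) (addE a β p) := by
  classical
  unfold addE
  split_ifs with hp
  · have hnew : ∀ e ∈ insert (p.1, (⟨hol a p.2, hp.1⟩ : Fin n)) β,
        e = (p.1, (⟨hol a p.2, hp.1⟩ : Fin n)) ∨ e ∈ β := fun e he => mem_insert.1 he
    refine ⟨?_, ?_, ?_⟩
    · intro e he f hf hef
      rcases hnew e he with rfl | he <;> rcases hnew f hf with rfl | hf
      · rfl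
      · exfalso
        rcases hef with h1 | h1
        · exact hp.2 f.2 (by
            have : (p.1, f.2) = f := Prod.ext h1 rfl
            rw [this]; exact hf)
        · have h2 := h.lt f hf
          have h3 := hol_div a p.2
          rw [← h1] at h2
          simp only at h2
          omega
      · exfalso
        rcases hef with h1 | h1
        · exact hp.2 e.2 (by
            have : (p.1, e.2) = e := Prod.ext h1.symm rfl
            rw [this]; exact he)
        · have h2 := h.lt e he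
          have h3 := hol_div a p.2
          rw [h1] at h2
          simp only at h2
          omega
      · exact h.pm e he f hf hef
    · intro e he
      rcases hnew e he with rfl | he
      · simp only
        rw [hol_div]
        omega
      · have := h.lt e he
        omega
    · intro e he f hf hef
      rcases hnew e he with rfl | he <;> rcases hnew f hf with rfl | hf
      · rfl
      · exfalso
        simp only [hol_div] at hef
        have := h.lt f hf
        omega
      · exfalso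
        simp only [hol_div] at hef
        have := h.lt e he
        omega
      · exact h.one e he f hf hef
  · exact ⟨h.pm, fun e he => by have := h.lt e he; omega, h.one⟩

theorem nibble (hmn : n < m) {δ : Type*} (V : Finset δ) (C : δ → Finset (Fin m × Fin n)) {D : ℕ}
    (hC : ∀ d ∈ V, (C d).card = D) (a : ℕ) :
    ∃ β, Slots a β ∧ ∑ d ∈ V, phi (1 - 1 / (16 * m)) a β (C d) ≤
      (1 + D / (12 * (m : ℝ) ^ 2)) ^ a * (V.card * (1 - 1 / (16 * (m : ℝ))) ^ D) := by
  classical
  induction a with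
  | zero =>
    refine ⟨∅, ⟨fun e he => absurd he (notMem_empty _), fun e he => absurd he (notMem_empty _),
      fun e he => absurd he (notMem_empty _)⟩, ?_⟩
    rw [pow_zero, one_mul, ← nsmul_eq_mul, ← sum_const]
    refine sum_le_sum fun d hd => ?_
    unfold phi
    rw [if_neg (by rintro ⟨e, he, _⟩; exact notMem_empty _ he)]
    have h1 : Yc 0 ∅ (C d) = D := by
      unfold Yc
      rw [← hC d hd]
      congr 1
      rw [filter_eq_self]
      intro e _
      exact ⟨Nat.zero_le _, fun j h => notMem_empty _ h⟩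
    rw [h1]
  | succ a ih =>
    obtain ⟨β, h1, h2⟩ := ih
    obtain ⟨p, hp⟩ := step_all hmn V C (fun d hd => (hC d hd).le) a β
    refine ⟨addE a β p, h1.step p, hp.trans ?_⟩
    have h3 : (0 : ℝ) ≤ 1 + D / (12 * (m : ℝ) ^ 2) := by positivity
    calc (1 + D / (12 * (m : ℝ) ^ 2)) * ∑ d ∈ V, phi (1 - 1 / (16 * m)) a β (C d)
        ≤ (1 + D / (12 * (m : ℝ) ^ 2)) * ((1 + D / (12 * (m : ℝ) ^ 2)) ^ a *
            (V.card * (1 - 1 / (16 * (m : ℝ))) ^ D)) := mul_le_mul_of_nonneg_left h2 h3
      _ = (1 + D / (12 * (m : ℝ) ^ 2)) ^ (a + 1) *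
            (V.card * (1 - 1 / (16 * (m : ℝ))) ^ D) := by rw [pow_succ]; ring

/-- A family of fewer than `2 ^ q` sets of `64 m q` edges is hit by a matching which leaves one
hole of each pair free. -/
theorem exists_kill (hmn : n < m) {δ : Type*} (V : Finset δ) (C : δ → Finset (Fin m × Fin n))
    (q : ℕ) (hC : ∀ d ∈ V, 64 * m * q ≤ (C d).card) (hV : V.card < 2 ^ q) :
    ∃ β : Finset (Fin m × Fin n), IsPartialMatching β ∧
      (∀ s < n / 2, ∃ j : Fin n, j.val / 2 = s ∧ FreeHole β j) ∧
      ∀ d ∈ V, ∃ e ∈ β, e ∈ C d := by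
  classical
  have hsub : ∀ d ∈ V, ∃ C' ⊆ C d, C'.card = 64 * m * q := fun d hd =>
    exists_subset_card_eq (hC d hd)
  choose! C' hC1 hC2 using hsub
  obtain ⟨β, h1, h2⟩ := nibble hmn V C' hC2 ((n + 1) / 2)
  refine ⟨β, h1.pm, ?_, ?_⟩
  · intro s hs
    by_cases h3 : FreeHole β (⟨2 * s, by omega⟩ : Fin n)
    · exact ⟨_, by simp, h3⟩
    · refine ⟨⟨2 * s + 1, by omega⟩, by simp only; omega, ?_⟩
      unfold FreeHole at h3
      push Not at h3
      obtain ⟨i, hi⟩ := h3
      intro i' hi'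
      have h4 := h1.one _ hi _ hi' (by simp only; omega)
      have h5 := congrArg (fun e : Fin m × Fin n => e.2.val) h4
      simp only at h5
      omega
  · by_contra hcon
    push Not at hcon
    obtain ⟨d, hd, hnk⟩ := hcon
    have hm : (0 : ℝ) < m := by exact_mod_cast (by omega : 0 < m)
    have hm1 : (1 : ℝ) ≤ m := by exact_mod_cast (by omega : 1 ≤ m)
    have hu0 : (0 : ℝ) ≤ 1 - 1 / (16 * m) := by
      have : 1 / (16 * (m : ℝ)) ≤ 1 / 16 := one_div_le_one_div_of_le (by norm_num) (by linarith)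
      linarith
    have h3 : (1 : ℝ) ≤ ∑ d ∈ V, phi (1 - 1 / (16 * m)) ((n + 1) / 2) β (C' d) := by
      have h4 : phi (1 - 1 / (16 * (m : ℝ))) ((n + 1) / 2) β (C' d) = 1 := by
        unfold phi
        rw [if_neg]
        · have h5 : Yc ((n + 1) / 2) β (C' d) = 0 := by
            unfold Yc
            rw [card_eq_zero, filter_eq_empty_iff]
            intro e _ h6
            have := e.2.isLt
            omega
          rw [h5, pow_zero]
        · rintro ⟨e, he, he'⟩
          exact hnk e he (hC1 d hd he')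
      refine h4.symm.le.trans (single_le_sum
        (f := fun d => phi (1 - 1 / (16 * (m : ℝ))) ((n + 1) / 2) β (C' d)) (fun d _ => ?_) hd)
      unfold phi
      split_ifs
      · exact le_rfl
      · exact pow_nonneg hu0 _
    have h4 := h3.trans h2
    have hq0 : (0 : ℝ) ≤ q := Nat.cast_nonneg _
    -- the growth
    have h5 : (1 + ((64 * m * q : ℕ) : ℝ) / (12 * (m : ℝ) ^ 2)) ^ ((n + 1) / 2) ≤
        Real.exp (3 * q) := by
      have h6 : 1 + ((64 * m * q : ℕ) : ℝ) / (12 * (m : ℝ) ^ 2) ≤ Real.exp (16 * q / (3 * m)) := by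
        have h7 := Real.add_one_le_exp (16 * (q : ℝ) / (3 * m))
        refine le_trans (le_of_eq ?_) h7
        push_cast
        field_simp
        ring
      calc (1 + ((64 * m * q : ℕ) : ℝ) / (12 * (m : ℝ) ^ 2)) ^ ((n + 1) / 2)
          ≤ Real.exp (16 * q / (3 * m)) ^ ((n + 1) / 2) := by
            refine pow_le_pow_left₀ (by positivity) h6 _
        _ = Real.exp (((n + 1) / 2 : ℕ) * (16 * q / (3 * m))) := by rw [← Real.exp_nat_mul]
        _ ≤ Real.exp (3 * q) := by
            rw [Real.exp_le_exp]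
            have h8 : (((n + 1) / 2 : ℕ) : ℝ) ≤ m / 2 := by
              have h9 : 2 * ((n + 1) / 2) ≤ m := by omega
              have h10 : (2 : ℝ) * (((n + 1) / 2 : ℕ) : ℝ) ≤ m := by exact_mod_cast h9
              linarith
            calc (((n + 1) / 2 : ℕ) : ℝ) * (16 * q / (3 * m))
                ≤ (m / 2) * (16 * q / (3 * m)) :=
                  mul_le_mul_of_nonneg_right h8 (by positivity)
              _ = 8 / 3 * q := by field_simp; ring
              _ ≤ 3 * q := by nlinarith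
    have h6 : (1 - 1 / (16 * (m : ℝ))) ^ (64 * m * q) ≤ Real.exp (-(4 * q)) := by
      have h7 := Real.add_one_le_exp (-(1 / (16 * (m : ℝ))))
      have h8 : (1 - 1 / (16 * (m : ℝ))) ≤ Real.exp (-(1 / (16 * (m : ℝ)))) := by linarith
      calc (1 - 1 / (16 * (m : ℝ))) ^ (64 * m * q)
          ≤ Real.exp (-(1 / (16 * (m : ℝ)))) ^ (64 * m * q) := pow_le_pow_left₀ hu0 h8 _
        _ = Real.exp ((64 * m * q : ℕ) * -(1 / (16 * (m : ℝ)))) := by rw [← Real.exp_nat_mul]
        _ = Real.exp (-(4 * q)) := by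
            congr 1
            push_cast
            field_simp
            ring
    have h7 : (V.card : ℝ) < Real.exp q := by
      have h8 : (V.card : ℝ) < 2 ^ q := by exact_mod_cast hV
      refine h8.trans_le ?_
      have h9 : (2 : ℝ) ≤ Real.exp 1 := by
        have := Real.add_one_le_exp (1 : ℝ)
        linarith
      calc (2 : ℝ) ^ q ≤ Real.exp 1 ^ q := pow_le_pow_left₀ (by norm_num) h9 _
        _ = Real.exp q := by rw [← Real.exp_nat_mul, mul_one]
    have h8 : (V.card : ℝ) * (1 - 1 / (16 * (m : ℝ))) ^ (64 * m * q) ≤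
        V.card * Real.exp (-(4 * q)) := mul_le_mul_of_nonneg_left h6 (Nat.cast_nonneg _)
    have h9 : (V.card : ℝ) * Real.exp (-(4 * q)) < Real.exp q * Real.exp (-(4 * q)) :=
      mul_lt_mul_of_pos_right h7 (Real.exp_pos _)
    have h10 : (1 : ℝ) < Real.exp (3 * q) * (Real.exp q * Real.exp (-(4 * q))) := by
      calc (1 : ℝ) ≤ (1 + ((64 * m * q : ℕ) : ℝ) / (12 * (m : ℝ) ^ 2)) ^ ((n + 1) / 2) *
            (V.card * (1 - 1 / (16 * (m : ℝ))) ^ (64 * m * q)) := h4
        _ ≤ Real.exp (3 * q) * (V.card * (1 - 1 / (16 * (m : ℝ))) ^ (64 * m * q)) :=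
            mul_le_mul_of_nonneg_right h5 (mul_nonneg (Nat.cast_nonneg _) (pow_nonneg hu0 _))
        _ < Real.exp (3 * q) * (Real.exp q * Real.exp (-(4 * q))) :=
            mul_lt_mul_of_pos_left (h8.trans_lt h9) (Real.exp_pos _)
    rw [← Real.exp_add, ← Real.exp_add] at h10
    have h11 : 3 * (q : ℝ) + (q + -(4 * q)) = 0 := by ring
    rw [h11, Real.exp_zero] at h10
    exact lt_irrefl _ h10

end Nibble

section Memory

variable {F : Type*} [Field F] {m n : ℕ}

/-- Exponent vectors. -/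
abbrev Mono (m n : ℕ) : Type := ((Fin m × Fin n) × Bool) →₀ ℕ

/-- The value of the monomial `d` at the point of `μ` is one. -/
def Alive (μ : Finset (Fin m × Fin n)) (d : Mono m n) : Prop :=
  (∀ e, d (e, true) ≠ 0 → e ∈ μ) ∧ ∀ e, d (e, false) ≠ 0 → e ∉ μ

open Classical in
/-- The free holes `j` such that `(i, j)` is in `G`. -/
noncomputable def avail (G β : Finset (Fin m × Fin n)) (i : Fin m) : Finset (Fin n) :=
  univ.filter fun j => (i, j) ∈ G ∧ FreeHole β j

open Classical in
/-- The free holes `j` such that `(i, j)` is in `G` and the barred variable of `(i, j)` occurs in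
the monomial `d`. -/
noncomputable def barred (G β : Finset (Fin m × Fin n)) (d : Mono m n) (i : Fin m) :
    Finset (Fin n) :=
  univ.filter fun j => (i, j) ∈ G ∧ FreeHole β j ∧ d ((i, j), false) ≠ 0

/-- The value of the monomial `d` is zero at all partial matchings which contain `β` and all of
whose other edges are in `G`. -/
def Zero (G β : Finset (Fin m × Fin n)) (d : Mono m n) : Prop :=
  ∀ ν, IsPartialMatching ν → β ⊆ ν → (∀ e ∈ ν, e ∈ β ∨ e ∈ G) → ¬ Alive ν d

theorem eval_mono (μ : Finset (Fin m × Fin n)) (d : Mono m n)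
    [Decidable (Alive μ d)] :
    d.prod (fun v k => point F μ v ^ k) = if Alive μ d then 1 else 0 := by
  classical
  split_ifs with h
  · obtain ⟨h1, h2⟩ := h
    refine Finset.prod_eq_one ?_
    rintro ⟨e, b⟩ hv
    rw [Finsupp.mem_support_iff] at hv
    have : point F μ (e, b) = 1 := by
      unfold point
      cases b with
      | true => simp [h1 e hv]
      | false => simp [h2 e hv]
    change point F μ (e, b) ^ d (e, b) = 1
    rw [this, one_pow]
  · unfold Alive at h
    rw [not_and_or] at h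
    rcases h with h | h
    · push Not at h
      obtain ⟨e, hd, hem⟩ := h
      refine Finset.prod_eq_zero (i := (e, true)) (by rwa [Finsupp.mem_support_iff]) ?_
      have : point F μ (e, true) = 0 := by simp [point, hem]
      change point F μ (e, true) ^ d (e, true) = 0
      rw [this, zero_pow hd]
    · push Not at h
      obtain ⟨e, hd, hem⟩ := h
      refine Finset.prod_eq_zero (i := (e, false)) (by rwa [Finsupp.mem_support_iff]) ?_
      have : point F μ (e, false) = 0 := by simp [point, hem]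
      change point F μ (e, false) ^ d (e, false) = 0
      rw [this, zero_pow hd]

theorem eval_congr' {μ ν : Finset (Fin m × Fin n)} {p : Poly F m n}
    (h : ∀ d ∈ p.support, (Alive μ d ↔ Alive ν d)) :
    eval (point F μ) p = eval (point F ν) p := by
  classical
  rw [MvPolynomial.eval_eq, MvPolynomial.eval_eq]
  refine Finset.sum_congr rfl fun d hd => ?_
  have h1 := h d hd
  have e1 := eval_mono (F := F) μ d
  have e2 := eval_mono (F := F) ν d
  have e3 : (∏ v ∈ d.support, point F μ v ^ d v) = ∏ v ∈ d.support, point F ν v ^ d v := by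
    change d.prod (fun v k => point F μ v ^ k) = d.prod (fun v k => point F ν v ^ k)
    rw [e1, e2]
    by_cases h3 : Alive ν d
    · rw [if_pos h3, if_pos (h1.2 h3)]
    · rw [if_neg h3, if_neg (fun h4 => h3 (h1.1 h4))]
  rw [e3]

theorem isPM_insert {μ : Finset (Fin m × Fin n)} (hμ : IsPartialMatching μ) {i : Fin m}
    {j : Fin n} (hi : ∀ j', (i, j') ∉ μ) (hj : ∀ i', (i', j) ∉ μ) :
    IsPartialMatching (insert (i, j) μ) := by
  rintro ⟨a, b⟩ he ⟨c, d⟩ hf h
  rw [mem_insert] at he hf
  rcases he with he | he <;> rcases hf with hf | hf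
  · rw [he, hf]
  · obtain ⟨rfl, rfl⟩ := Prod.mk.inj he
    rcases h with h | h
    · exact absurd hf (by simp only at h; rw [← h]; exact hi _)
    · exact absurd hf (by simp only at h; rw [← h]; exact hj _)
  · obtain ⟨rfl, rfl⟩ := Prod.mk.inj hf
    rcases h with h | h
    · exact absurd he (by simp only at h; rw [h]; exact hi _)
    · exact absurd he (by simp only at h; rw [h]; exact hj _)
  · exact hμ _ he _ hf h

/-- The edge `e` kills the monomial `d`. -/
def KillE (e : Fin m × Fin n) (d : Mono m n) : Prop :=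
  d (e, false) ≠ 0 ∨ ∃ j, j ≠ e.2 ∧ d ((e.1, j), true) ≠ 0

/-- Some edge of `ν` kills the monomial `d`. -/
def Kill (ν : Finset (Fin m × Fin n)) (d : Mono m n) : Prop := ∃ e ∈ ν, KillE e d

theorem Kill.mono {ν ν' : Finset (Fin m × Fin n)} {d : Mono m n} (h : Kill ν d)
    (hs : ν ⊆ ν') : Kill ν' d := by
  obtain ⟨e, he, h'⟩ := h
  exact ⟨e, hs he, h'⟩

theorem Kill.not_alive {ν : Finset (Fin m × Fin n)} (hν : IsPartialMatching ν) {d : Mono m n}
    (h : Kill ν d) : ¬ Alive ν d := by
  obtain ⟨e, he, h' | ⟨j, hj, h'⟩⟩ := h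
  · exact fun ha => ha.2 e h' he
  · intro ha
    have h1 := ha.1 _ h'
    have h2 := hν _ h1 _ he (Or.inl rfl)
    exact hj (congrArg Prod.snd h2)

theorem dec_mono {ν ν' : Finset (Fin m × Fin n)} {d : Mono m n} (h : Alive ν d ∨ Kill ν d)
    (hs : ν ⊆ ν') : Alive ν' d ∨ Kill ν' d := by
  rcases h with h | h
  · by_cases h1 : ∃ e ∈ ν', d (e, false) ≠ 0
    · obtain ⟨e, he, h2⟩ := h1
      exact Or.inr ⟨e, he, Or.inl h2⟩
    · push Not at h1
      exact Or.inl ⟨fun e he => hs (h.1 e he), fun e he he' => he (h1 e he')⟩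
  · exact Or.inr (h.mono hs)

/-- The data of the construction. -/
structure Par (m n : ℕ) where
  G : Finset (Fin m × Fin n)
  β : Finset (Fin m × Fin n)
  κ : ℕ
  Δ : ℕ
  hG : ∀ i, FreePigeon β i → Δ ≤ (avail G β i).card

namespace Par

variable (P : Par m n)

open Classical in
/-- The free pigeons at which the monomials of `T` together have more than `κ` barred
variables. -/
noncomputable def busy (T : Finset (Mono m n)) : Finset (Fin m) :=
  univ.filter fun i => FreePigeon P.β i ∧
    P.κ < ∑ d ∈ T.filter (fun d => ¬ Zero P.G P.β d), (barred P.G P.β d i).card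

/-- `ν` is a matching which extends `ρ` by edges of `G` which do not occur barred in `T`. -/
structure Ext (T : Finset (Mono m n)) (ρ ν : Finset (Fin m × Fin n)) : Prop where
  sub : ρ ⊆ ν
  pm : IsPartialMatching ν
  av : ∀ e ∈ ν, e ∉ ρ → ∀ d ∈ T, ¬ Zero P.G P.β d → d (e, false) = 0
  al : ∀ e ∈ ν, e ∉ ρ → e ∈ P.G

variable {P}

theorem card_out {ρ ν : Finset (Fin m × Fin n)} (hβ : P.β ⊆ ρ) (h : ρ ⊆ ν) :
    (ν \ P.β).card + P.β.card = ν.card := by
  rw [card_sdiff_of_subset (hβ.trans h)]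
  have := card_le_card (hβ.trans h)
  omega

/-- A hole for the pigeon `i` outside the small set `X`. -/
theorem add_any {T : Finset (Mono m n)} {ρ ν : Finset (Fin m × Fin n)} (h : P.Ext T ρ ν)
    (hβ : P.β ⊆ ρ) (ho : ∀ i ∈ P.busy T, ∃ j, (i, j) ∈ ρ) (X : Finset (Fin n))
    (hc : ν.card + P.κ + X.card < P.β.card + P.Δ) {i : Fin m}
    (hi : ∀ j', (i, j') ∉ ν) :
    ∃ j, j ∉ X ∧ P.Ext T ρ (insert (i, j) ν) := by
  classical
  have hfree : FreePigeon P.β i := fun j hj => hi j (h.sub (hβ hj))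
  have hno : i ∉ P.busy T := by
    intro h1
    obtain ⟨j, hj⟩ := ho i h1
    exact hi j (h.sub hj)
  have hk : ∑ d ∈ T.filter (fun d => ¬ Zero P.G P.β d), (barred P.G P.β d i).card ≤ P.κ := by
    by_contra h1
    exact hno (mem_filter.2 ⟨mem_univ _, hfree, not_le.1 h1⟩)
  obtain ⟨j, hjG, hjF, hj⟩ : ∃ j, (i, j) ∈ P.G ∧ FreeHole P.β j ∧
      j ∉ X ∪ ((ν \ P.β).image Prod.snd ∪
        (T.filter fun d => ¬ Zero P.G P.β d).biUnion fun d => barred P.G P.β d i) := by
    have h1 := P.hG i hfree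
    have h3 := card_union_le X ((ν \ P.β).image Prod.snd ∪
      (T.filter fun d => ¬ Zero P.G P.β d).biUnion fun d => barred P.G P.β d i)
    have h5 := card_union_le ((ν \ P.β).image Prod.snd)
      ((T.filter fun d => ¬ Zero P.G P.β d).biUnion fun d => barred P.G P.β d i)
    have h4 : ((ν \ P.β).image Prod.snd).card ≤ (ν \ P.β).card := card_image_le
    have h6 : ((T.filter fun d => ¬ Zero P.G P.β d).biUnion
        fun d => barred P.G P.β d i).card ≤ P.κ := card_biUnion_le.trans hk
    have h8 := card_out hβ h.sub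
    have h7 : (X ∪ ((ν \ P.β).image Prod.snd ∪
        (T.filter fun d => ¬ Zero P.G P.β d).biUnion
          fun d => barred P.G P.β d i)).card < P.Δ := by omega
    obtain ⟨j, hj1, hj2⟩ := exists_mem_notMem_of_card_lt_card (h7.trans_le h1)
    unfold avail at hj1
    rw [mem_filter] at hj1
    exact ⟨j, hj1.2.1, hj1.2.2, hj2⟩
  rw [mem_union, mem_union, not_or, not_or] at hj
  refine ⟨j, hj.1, h.sub.trans (subset_insert _ _), isPM_insert h.pm hi (fun i' h' => ?_), ?_, ?_⟩
  · exact hj.2.1 (mem_image.2 ⟨_, mem_sdiff.2 ⟨h', fun h'' => hjF i' h''⟩, rfl⟩)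
  · intro e he heρ d hd hz
    rw [mem_insert] at he
    rcases he with rfl | he
    · by_contra h9
      refine hj.2.2 (mem_biUnion.2 ⟨d, mem_filter.2 ⟨hd, hz⟩, ?_⟩)
      unfold barred
      exact mem_filter.2 ⟨mem_univ _, hjG, hjF, h9⟩
    · exact h.av e he heρ d hd hz
  · intro e he heρ
    rw [mem_insert] at he
    rcases he with rfl | he
    · exact hjG
    · exact h.al e he heρ

theorem add_pigeon {T : Finset (Mono m n)} {ρ ν : Finset (Fin m × Fin n)} (h : P.Ext T ρ ν)
    (hβ : P.β ⊆ ρ) (ho : ∀ i ∈ P.busy T, ∃ j, (i, j) ∈ ρ)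
    (hc : ν.card + P.κ < P.β.card + P.Δ) (i : Fin m) :
    ∃ ν', ν ⊆ ν' ∧ P.Ext T ρ ν' ∧ ν'.card ≤ ν.card + 1 ∧ ∃ j, (i, j) ∈ ν' := by
  classical
  by_cases hi : ∃ j, (i, j) ∈ ν
  · exact ⟨ν, Subset.rfl, h, by omega, hi⟩
  push Not at hi
  obtain ⟨j, _, g⟩ := add_any h hβ ho ∅ (by simpa using hc) hi
  exact ⟨_, subset_insert _ _, g, card_insert_le _ _, j, mem_insert_self _ _⟩

theorem match_set {T : Finset (Mono m n)} {ρ ν : Finset (Fin m × Fin n)} (h : P.Ext T ρ ν)
    (hβ : P.β ⊆ ρ) (ho : ∀ i ∈ P.busy T, ∃ j, (i, j) ∈ ρ) (H : Finset (Fin m)) :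
    ν.card + H.card + P.κ ≤ P.β.card + P.Δ →
    ∃ ν', ν ⊆ ν' ∧ P.Ext T ρ ν' ∧ ν'.card ≤ ν.card + H.card ∧ ∀ i ∈ H, ∃ j, (i, j) ∈ ν' := by
  classical
  induction H using Finset.induction_on with
  | empty =>
    intro _
    exact ⟨ν, Subset.rfl, h, by simp, fun i hi => absurd hi (notMem_empty _)⟩
  | insert i H hiH ih =>
    intro hc
    rw [card_insert_of_notMem hiH] at hc
    obtain ⟨ν₁, g1, g2, g3, g4⟩ := ih (by omega)
    obtain ⟨ν₂, f1, f2, f3, f4⟩ := add_pigeon g2 hβ ho (by omega) i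
    refine ⟨ν₂, g1.trans f1, f2, ?_, ?_⟩
    · rw [card_insert_of_notMem hiH]
      omega
    · intro i' hi'
      rw [mem_insert] at hi'
      rcases hi' with rfl | hi'
      · exact f4
      · obtain ⟨j, hj⟩ := g4 i' hi'
        exact ⟨j, f1 hj⟩

/-- One new edge decides the monomial `d`. -/
theorem decide_one {T : Finset (Mono m n)} {ρ ν : Finset (Fin m × Fin n)} (h : P.Ext T ρ ν)
    (hβ : P.β ⊆ ρ) (ho : ∀ i ∈ P.busy T, ∃ j, (i, j) ∈ ρ)
    (hc : ν.card + P.κ + 1 < P.β.card + P.Δ) (d : Mono m n) :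
    ∃ ν', ν ⊆ ν' ∧ P.Ext T ρ ν' ∧ ν'.card ≤ ν.card + 1 ∧ (Alive ν' d ∨ Kill ν' d) := by
  classical
  by_cases hk : Alive ν d ∨ Kill ν d
  · exact ⟨ν, Subset.rfl, h, by omega, hk⟩
  rw [not_or] at hk
  have h1 : ∃ e, d (e, true) ≠ 0 ∧ e ∉ ν := by
    by_contra h2
    push Not at h2
    refine hk.1 ⟨h2, fun e he he' => hk.2 ⟨e, he', Or.inl he⟩⟩
  obtain ⟨⟨i, j⟩, h2, h3⟩ := h1
  have hi : ∀ j', (i, j') ∉ ν := by
    intro j' hj'
    refine hk.2 ⟨_, hj', Or.inr ⟨j, ?_, h2⟩⟩
    intro h4
    simp only at h4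
    rw [h4] at h3
    exact h3 hj'
  obtain ⟨j', hj', g⟩ := add_any h hβ ho {j} (by simpa using hc) hi
  refine ⟨_, subset_insert _ _, g, card_insert_le _ _, Or.inr ⟨_, mem_insert_self _ _,
    Or.inr ⟨j, ?_, h2⟩⟩⟩
  intro h4
  simp only at h4
  exact hj' (mem_singleton.2 h4.symm)

theorem decide_all {T : Finset (Mono m n)} {ρ ν : Finset (Fin m × Fin n)} (h : P.Ext T ρ ν)
    (hβ : P.β ⊆ ρ) (ho : ∀ i ∈ P.busy T, ∃ j, (i, j) ∈ ρ) (E : Finset (Mono m n)) :
    ν.card + E.card + P.κ + 1 ≤ P.β.card + P.Δ →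
    ∃ ν', ν ⊆ ν' ∧ P.Ext T ρ ν' ∧ ν'.card ≤ ν.card + E.card ∧
      ∀ d ∈ E, Alive ν' d ∨ Kill ν' d := by
  classical
  induction E using Finset.induction_on with
  | empty =>
    intro _
    exact ⟨ν, Subset.rfl, h, by simp, fun i hi => absurd hi (notMem_empty _)⟩
  | insert d E hdE ih =>
    intro hc
    rw [card_insert_of_notMem hdE] at hc
    obtain ⟨ν₁, g1, g2, g3, g4⟩ := ih (by omega)
    obtain ⟨ν₂, f1, f2, f3, f4⟩ := decide_one g2 hβ ho (by omega) d
    refine ⟨ν₂, g1.trans f1, f2, ?_, ?_⟩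
    · rw [card_insert_of_notMem hdE]
      omega
    · intro d' hd'
      rw [mem_insert] at hd'
      rcases hd' with rfl | hd'
      · exact f4
      · exact dec_mono (g4 d' hd') f1

/-- The monomials of `T` keep their values. -/
theorem alive_iff {T : Finset (Mono m n)} {ρ ν : Finset (Fin m × Fin n)} (h : P.Ext T ρ ν)
    (hβ : P.β ⊆ ρ) (hρ : IsPartialMatching ρ) (hG : ∀ e ∈ ρ, e ∈ P.β ∨ e ∈ P.G)
    (hd : ∀ d ∈ T, ¬ Zero P.G P.β d → Alive ρ d ∨ Kill ρ d) {d : Mono m n} (hdT : d ∈ T) :
    Alive ρ d ↔ Alive ν d := by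
  classical
  have hGν : ∀ e ∈ ν, e ∈ P.β ∨ e ∈ P.G := by
    intro e he
    by_cases h1 : e ∈ ρ
    · exact hG e h1
    · exact Or.inr (h.al e he h1)
  by_cases hz : Zero P.G P.β d
  · exact iff_of_false (hz ρ hρ hβ hG) (hz ν h.pm (hβ.trans h.sub) hGν)
  rcases hd d hdT hz with h1 | h1
  · refine iff_of_true h1 ⟨fun e he => h.sub (h1.1 e he), fun e he he' => ?_⟩
    exact he (h.av e he' (h1.2 e he) d hdT hz)
  · exact iff_of_false (h1.not_alive hρ) ((h1.mono h.sub).not_alive h.pm)

open Classical in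
/-- The free pigeons at which the monomial `d` has an unbarred variable. -/
noncomputable def pos (β : Finset (Fin m × Fin n)) (d : Mono m n) : Finset (Fin m) :=
  univ.filter fun i => FreePigeon β i ∧ ∃ j, d ((i, j), true) ≠ 0

/-- The edges which are remembered because of `d`. -/
theorem exists_memory {ν : Finset (Fin m × Fin n)} (hν : IsPartialMatching ν) {p : ℕ}
    (hp : 1 ≤ p) {d : Mono m n} (hd : (pos P.β d).card ≤ p) (h : Alive ν d ∨ Kill ν d)
    (hβν : P.β ⊆ ν) :
    ∃ w ⊆ ν, w.card ≤ p ∧ ∀ ρ', P.β ⊆ ρ' → w ⊆ ρ' → ρ' ⊆ ν →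
      (Alive ρ' d ∨ Kill ρ' d) ∧ (Alive ρ' d ↔ Alive ν d) := by
  classical
  rcases h with h | ⟨e, he, h⟩
  · refine ⟨ν.filter fun e => d (e, true) ≠ 0 ∧ FreePigeon P.β e.1, filter_subset _ _, ?_, ?_⟩
    · refine le_trans ?_ hd
      refine card_le_card_of_injOn Prod.fst ?_ ?_
      · intro e he
        rw [mem_coe, mem_filter] at he
        rw [mem_coe]
        unfold pos
        exact mem_filter.2 ⟨mem_univ _, he.2.2, e.2, he.2.1⟩
      · intro e he f hf hef
        rw [mem_coe, mem_filter] at he hf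
        exact hν e he.1 f hf.1 (Or.inl hef)
    · intro ρ' h1 h2 h3
      have h4 : Alive ρ' d := by
        refine ⟨fun e he => ?_, fun e he he' => h.2 e he (h3 he')⟩
        by_cases h5 : FreePigeon P.β e.1
        · exact h2 (mem_filter.2 ⟨h.1 e he, he, h5⟩)
        · unfold FreePigeon at h5
          push Not at h5
          obtain ⟨j, hj⟩ := h5
          have h6 := hν _ (h.1 e he) _ (hβν hj) (Or.inl rfl)
          rw [h6]
          exact h1 hj
      exact ⟨Or.inl h4, iff_of_true h4 h⟩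
  · refine ⟨{e}, singleton_subset_iff.2 he, by rw [card_singleton]; exact hp, ?_⟩
    intro ρ' h1 h2 h3
    have h4 : Kill ρ' d := ⟨e, h2 (mem_singleton_self _), h⟩
    have h5 : IsPartialMatching ρ' := fun a ha b hb hab => hν a (h3 ha) b (h3 hb) hab
    exact ⟨Or.inr h4, iff_of_false (h4.not_alive h5)
      (Kill.not_alive hν ⟨e, he, h⟩)⟩

/-- The state before the step `t`. -/
def Inv (P : Par m n) (p O : ℕ) (M : ℕ → Finset (Poly F m n)) (t : ℕ)
    (ρ : Finset (Fin m × Fin n)) : Prop :=
  P.β ⊆ ρ ∧ IsPartialMatching ρ ∧ (∀ e ∈ ρ, e ∈ P.β ∨ e ∈ P.G) ∧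
    ρ.card ≤ P.β.card + (monos (M t)).card * p + O ∧
    (∀ d ∈ monos (M t), ¬ Zero P.G P.β d → Alive ρ d ∨ Kill ρ d) ∧
    (∀ i ∈ P.busy (monos (M t)), ∃ j, (i, j) ∈ ρ) ∧
    ∀ q ∈ M t, eval (point F ρ) q = 0

theorem step_inv {M : ℕ → Finset (Poly F m n)} {J : Ideal (Poly F m n)} {t : ℕ}
    (hJ : J ≤ matchIdeal F m n) {a : Poly F m n} {i : Fin m}
    (ha : ∀ μ : Finset (Fin m × Fin n), IsPartialMatching μ → (∃ j, (i, j) ∈ μ) →
      eval (point F μ) a = 0)
    (hstep : ∀ q ∈ M (t + 1), q ∈ Ideal.span (M t : Set (Poly F m n)) ⊔ J ⊔ Ideal.span {a})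
    {p O s : ℕ} (hp : 1 ≤ p)
    (hs : (monos (M t)).card ≤ s) (hs' : (monos (M (t + 1))).card ≤ s)
    (hO' : (P.busy (monos (M (t + 1)))).card ≤ O)
    (hd : ∀ d ∈ monos (M (t + 1)), ¬ Zero P.G P.β d → (pos P.β d).card ≤ p)
    (hc : s * p + s + 2 * O + P.κ + 1 < P.Δ)
    {ρ : Finset (Fin m × Fin n)} (hI : P.Inv p O M t ρ) :
    ∃ ν ρ', (∀ q ∈ M (t + 1), eval (point F ν) q = 0) ∧ P.Inv p O M (t + 1) ρ' := by
  classical
  obtain ⟨h1, h2, h3, h4, h5, h6, h7⟩ := hI
  have hsupp : ∀ t, ∀ q ∈ M t, q.support ⊆ monos (M t) := by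
    intro t q hq d hd
    unfold monos
    rw [mem_biUnion]
    exact ⟨q, hq, hd⟩
  have hsp : (monos (M t)).card * p ≤ s * p := Nat.mul_le_mul_right _ hs
  have g0 : P.Ext (monos (M t)) ρ ρ :=
    ⟨Subset.rfl, h2, fun e he he' => absurd he he', fun e he he' => absurd he he'⟩
  obtain ⟨ν₁, a1, a2, a3, a4⟩ := decide_all g0 h1 h6 (monos (M (t + 1))) (by omega)
  obtain ⟨ν₂, b1, b2, b3, b4⟩ := match_set a2 h1 h6 (P.busy (monos (M (t + 1)))) (by omega)
  obtain ⟨ν, c1, c2, c3, c4⟩ := add_pigeon b2 h1 h6 (by omega) i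
  have hdν : ∀ d ∈ monos (M (t + 1)), Alive ν d ∨ Kill ν d := fun d hd =>
    dec_mono (a4 d hd) (b1.trans c1)
  have hoν : ∀ i ∈ P.busy (monos (M (t + 1))), ∃ j, (i, j) ∈ ν := by
    intro i hi
    obtain ⟨j, hj⟩ := b4 i hi
    exact ⟨j, c1 hj⟩
  have hGν : ∀ e ∈ ν, e ∈ P.β ∨ e ∈ P.G := by
    intro e he
    by_cases h8 : e ∈ ρ
    · exact h3 e h8
    · exact Or.inr (c2.al e he h8)
  have hβν : P.β ⊆ ν := h1.trans c2.sub
  have hvan : ∀ q ∈ M (t + 1), eval (point F ν) q = 0 := by
    intro q hq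
    have h8 : Ideal.span (M t : Set (Poly F m n)) ⊔ J ⊔ Ideal.span {a} ≤
        RingHom.ker (eval (point F ν)) := by
      refine sup_le (sup_le ?_ ?_) ?_
      · rw [Ideal.span_le]
        intro r hr
        refine RingHom.mem_ker.2 ?_
        rw [← eval_congr' (μ := ρ)]
        · exact h7 r hr
        · intro d hd'
          exact alive_iff c2 h1 h2 h3 h5 (hsupp t r hr hd')
      · refine hJ.trans ?_
        unfold matchIdeal
        exact iInf₂_le ν c2.pm
      · rw [Ideal.span_le]
        intro r hr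
        rw [Set.mem_singleton_iff] at hr
        subst hr
        exact RingHom.mem_ker.2 (ha ν c2.pm c4)
    exact RingHom.mem_ker.1 (h8 (hstep q hq))
  have hmem : ∀ d ∈ (monos (M (t + 1))).filter (fun d => ¬ Zero P.G P.β d),
      ∃ w ⊆ ν, w.card ≤ p ∧ ∀ ρ', P.β ⊆ ρ' → w ⊆ ρ' → ρ' ⊆ ν →
        (Alive ρ' d ∨ Kill ρ' d) ∧ (Alive ρ' d ↔ Alive ν d) := by
    intro d hd'
    rw [mem_filter] at hd'
    exact exists_memory c2.pm hp (hd d hd'.1 hd'.2) (hdν d hd'.1) hβν
  choose! w w1 w2 w3 using hmem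
  set U := (monos (M (t + 1))).filter (fun d => ¬ Zero P.G P.β d) with hU
  set R := ν.filter fun e => e.1 ∈ P.busy (monos (M (t + 1))) with hR
  have hρν : P.β ∪ U.biUnion w ∪ R ⊆ ν := by
    refine union_subset (union_subset hβν ?_) (filter_subset _ _)
    rw [biUnion_subset]
    exact w1
  have hβρ : P.β ⊆ P.β ∪ U.biUnion w ∪ R := subset_union_left.trans subset_union_left
  have hpm : IsPartialMatching (P.β ∪ U.biUnion w ∪ R) :=
    fun a ha b hb hab => c2.pm a (hρν ha) b (hρν hb) hab
  have hall : ∀ d ∈ monos (M (t + 1)), ¬ Zero P.G P.β d →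
      (Alive (P.β ∪ U.biUnion w ∪ R) d ∨ Kill (P.β ∪ U.biUnion w ∪ R) d) ∧
      (Alive (P.β ∪ U.biUnion w ∪ R) d ↔ Alive ν d) := by
    intro d hd' hz
    have hdm : d ∈ U := mem_filter.2 ⟨hd', hz⟩
    exact w3 d hdm _ hβρ ((subset_biUnion_of_mem w hdm).trans
      (subset_union_right.trans subset_union_left)) hρν
  refine ⟨ν, P.β ∪ U.biUnion w ∪ R, hvan, hβρ, hpm, fun e he => hGν e (hρν he), ?_,
    fun d hd' hz => (hall d hd' hz).1, ?_, ?_⟩
  · have e1 := card_union_le (P.β ∪ U.biUnion w) R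
    have e2 := card_union_le P.β (U.biUnion w)
    have e3 : (U.biUnion w).card ≤ (monos (M (t + 1))).card * p := by
      refine card_biUnion_le.trans ((sum_le_sum w2).trans ?_)
      rw [sum_const, smul_eq_mul]
      exact Nat.mul_le_mul_right _ (card_filter_le _ _)
    have e4 : R.card ≤ O := by
      refine le_trans ?_ hO'
      refine card_le_card_of_injOn Prod.fst ?_ ?_
      · intro e he
        rw [hR, mem_coe, mem_filter] at he
        exact he.2
      · intro e he f hf hef
        rw [hR, mem_coe, mem_filter] at he hf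
        exact c2.pm e he.1 f hf.1 (Or.inl hef)
    omega
  · intro i' hi'
    obtain ⟨j, hj⟩ := hoν i' hi'
    exact ⟨j, mem_union_right _ (mem_filter.2 ⟨hj, hi'⟩)⟩
  · intro q hq
    rw [eval_congr' (ν := ν)]
    · exact hvan q hq
    · intro d hd'
      have hd'' := hsupp (t + 1) q hq hd'
      by_cases hz : Zero P.G P.β d
      · exact iff_of_false (hz _ hpm hβρ fun e he => hGν e (hρν he)) (hz ν c2.pm hβν hGν)
      · exact (hall d hd'' hz).2

theorem sum_barred (G β : Finset (Fin m × Fin n)) (d : Mono m n) :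
    ∑ i, (barred G β d i).card ≤ (minus d).card := by
  classical
  rw [card_eq_sum_card_fiberwise (s := minus d) (f := Prod.fst) (t := univ)
    (fun _ _ => mem_coe.2 (mem_univ _))]
  refine sum_le_sum fun i _ => ?_
  refine card_le_card_of_injOn (fun j => (i, j)) ?_ ?_
  · intro j hj
    rw [mem_coe] at *
    unfold barred at hj
    rw [mem_filter] at hj
    unfold minus
    exact mem_filter.2 ⟨mem_filter.2 ⟨mem_univ _, hj.2.2.2⟩, rfl⟩
  · intro a _ b _ hab
    exact (Prod.mk.inj hab).2

theorem card_busy {D0 s : ℕ} {T : Finset (Mono m n)} (hs : T.card ≤ s)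
    (hD : ∀ d ∈ T, ¬ Zero P.G P.β d → (minus d).card ≤ D0) :
    (P.busy T).card ≤ s * D0 / (P.κ + 1) := by
  classical
  rw [Nat.le_div_iff_mul_le (Nat.succ_pos _)]
  have h1 : (P.busy T).card * (P.κ + 1) ≤ ∑ i, ∑ d ∈ T.filter (fun d => ¬ Zero P.G P.β d),
      (barred P.G P.β d i).card := by
    refine le_trans ?_ (sum_le_sum_of_subset (subset_univ (P.busy T)))
    rw [← smul_eq_mul, ← sum_const]
    refine sum_le_sum fun i hi => ?_
    unfold busy at hi
    rw [mem_filter] at hi
    exact hi.2.2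
  refine h1.trans ?_
  rw [sum_comm]
  calc ∑ d ∈ T.filter (fun d => ¬ Zero P.G P.β d), ∑ i, (barred P.G P.β d i).card
      ≤ ∑ _d ∈ T.filter (fun d => ¬ Zero P.G P.β d), D0 := by
        refine sum_le_sum fun d hd => (sum_barred _ _ _).trans ?_
        rw [mem_filter] at hd
        exact hD d hd.1 hd.2
    _ = (T.filter (fun d => ¬ Zero P.G P.β d)).card * D0 := by rw [sum_const, smul_eq_mul]
    _ ≤ s * D0 := Nat.mul_le_mul_right _ ((card_filter_le _ _).trans hs)

end Par

theorem bool_le : boolIdeal F m n ≤ matchIdeal F m n := by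
  classical
  unfold boolIdeal matchIdeal
  rw [Ideal.span_le]
  rintro p ⟨e, rfl | rfl⟩
  · simp only [Submodule.coe_iInf, Set.mem_iInter, SetLike.mem_coe, RingHom.mem_ker]
    intro μ _
    by_cases h : e ∈ μ <;> simp [x, point, h]
  · simp only [Submodule.coe_iInf, Set.mem_iInter, SetLike.mem_coe, RingHom.mem_ker]
    intro μ _
    by_cases h : e ∈ μ <;> simp [x, xbar, point, h]

theorem fPHP_sub (hm : 0 < m) : fPHP F m n ⊆ pigeonAxioms F m n := by
  classical
  rintro p ((⟨i, i', j, hii, rfl⟩ | ⟨i, j, j', hjj, rfl⟩) | ⟨i, rfl⟩)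
  · refine ⟨⟨0, hm⟩, fun μ hμ _ => ?_⟩
    by_cases h1 : (i, j) ∈ μ
    · by_cases h2 : (i', j) ∈ μ
      · have := hμ _ h1 _ h2 (Or.inr rfl)
        exact absurd (congrArg Prod.fst this) hii
      · simp [x, point, h2]
    · simp [x, point, h1]
  · refine ⟨⟨0, hm⟩, fun μ hμ _ => ?_⟩
    by_cases h1 : (i, j) ∈ μ
    · by_cases h2 : (i, j') ∈ μ
      · have := hμ _ h1 _ h2 (Or.inl rfl)
        exact absurd (congrArg Prod.snd this) hjj
      · simp [x, point, h2]
    · simp [x, point, h1]
  · refine ⟨i, fun μ hμ hi => ?_⟩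
    obtain ⟨j, hj⟩ := hi
    rw [map_prod]
    refine Finset.prod_eq_zero (i := j) (mem_univ _) ?_
    simp [xbar, point, hj]

theorem le_MSp {l t : ℕ} {M : ℕ → Finset (Poly F m n)} (ht : t ≤ l) :
    (monos (M t)).card ≤ MSp l M := by
  unfold MSp
  exact Finset.le_sup (f := fun t => (monos (M t)).card) (mem_range.2 (Nat.lt_succ_of_le ht))

theorem bound {β : Finset (Fin m × Fin n)} (hβ : IsPartialMatching β)
    (G : Finset (Fin m × Fin n)) (κ p D0 Δ : ℕ) (hp : 1 ≤ p)
    (hG : ∀ i, FreePigeon β i → Δ ≤ (avail G β i).card)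
    (hmn : n < m) (J : Ideal (Poly F m n)) (A : Set (Poly F m n))
    (hJ : J ≤ matchIdeal F m n) (hA : A ⊆ pigeonAxioms F m n) (l : ℕ)
    (M : ℕ → Finset (Poly F m n)) (hM : IsRefutation J A l M)
    (ht : ∀ t ≤ l, ∀ d ∈ monos (M t), ¬ Zero G β d →
      (minus d).card ≤ D0 ∧ (Par.pos β d).card ≤ p) :
    Δ ≤ MSp l M * p + MSp l M + 2 * (MSp l M * D0 / (κ + 1)) + κ + 1 := by
  classical
  by_contra hcon
  push Not at hcon
  let Q : Par m n := ⟨G, β, κ, Δ, hG⟩
  have hstep : ∀ t < l, ∀ ρ, Q.Inv p (MSp l M * D0 / (κ + 1)) M t ρ →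
      ∃ ν ρ', (∀ q ∈ M (t + 1), eval (point F ν) q = 0) ∧
        Q.Inv p (MSp l M * D0 / (κ + 1)) M (t + 1) ρ' := by
    intro t htl ρ hI
    obtain ⟨a, ha, hst⟩ := hM.step t htl
    obtain ⟨i, hi⟩ : ∃ i : Fin m, ∀ μ : Finset (Fin m × Fin n), IsPartialMatching μ →
        (∃ j, (i, j) ∈ μ) → eval (point F μ) a = 0 := by
      rcases ha with ha | ha
      · exact hA ha
      · rw [Set.mem_singleton_iff] at ha
        subst ha
        exact ⟨⟨0, by omega⟩, fun μ _ _ => map_zero _⟩
    have hov : (Q.busy (monos (M (t + 1)))).card ≤ MSp l M * D0 / (κ + 1) :=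
      Par.card_busy (P := Q) (le_MSp (by omega)) fun d hd hz => (ht (t + 1) (by omega) d hd hz).1
    exact Par.step_inv (P := Q) hJ hi hst hp (le_MSp htl.le) (le_MSp (by omega)) hov
      (fun d hd hz => (ht (t + 1) (by omega) d hd hz).2) hcon hI
  have hinv : ∀ t ≤ l, ∃ ρ, Q.Inv p (MSp l M * D0 / (κ + 1)) M t ρ := by
    intro t
    induction t with
    | zero =>
      intro _
      have hm0 : monos (M 0) = ∅ := by
        rw [hM.zero]
        unfold monos
        simp
      refine ⟨β, Subset.rfl, hβ, fun e he => Or.inl he, ?_, ?_, ?_, ?_⟩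
      · rw [add_assoc]
        exact Nat.le_add_right _ _
      · intro d hd
        rw [hm0] at hd
        exact absurd hd (notMem_empty _)
      · intro i hi
        rw [hm0] at hi
        unfold Par.busy at hi
        simp at hi
      · intro q hq
        rw [hM.zero] at hq
        exact absurd hq (Finset.notMem_empty _)
    | succ t ih =>
      intro htl
      obtain ⟨ρ, hρ⟩ := ih (by omega)
      obtain ⟨_, ρ', _, h⟩ := hstep t (by omega) ρ hρ
      exact ⟨ρ', h⟩
  have hlpos : 0 < l := by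
    rcases Nat.eq_zero_or_pos l with h | h
    · exfalso
      have h1 := hM.one_mem
      rw [h, hM.zero] at h1
      exact absurd h1 (Finset.notMem_empty _)
    · exact h
  obtain ⟨ρ, hρ⟩ := hinv (l - 1) (by omega)
  obtain ⟨ν, _, h, _⟩ := hstep (l - 1) (by omega) ρ hρ
  have h5 : l - 1 + 1 = l := by omega
  rw [h5] at h
  have h6 := h 1 hM.one_mem
  rw [map_one] at h6
  exact one_ne_zero h6

end Memory

section Final

variable {F : Type*} [Field F] {m n : ℕ}

theorem card_agree {I : Type*} [Fintype I] [DecidableEq I] (C : Finset I) (g : I → Bool) :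
    (Fintype.piFinset fun c => if c ∈ C then ({g c} : Finset Bool) else univ).card *
      2 ^ C.card = 2 ^ Fintype.card I := by
  classical
  rw [Fintype.card_piFinset]
  have h4 : ∀ c, (if c ∈ C then ({g c} : Finset Bool) else univ).card =
      if c ∈ C then 1 else 2 := by
    intro c
    split_ifs <;> simp
  simp_rw [h4]
  rw [prod_ite, prod_const_one, one_mul, prod_const, ← pow_add]
  have h6 := card_compl_add_card C
  have h7 : (univ.filter fun c => ¬ c ∈ C) = Cᶜ := by
    ext c
    simp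
  rw [h7, h6]

/-- A family of fewer than `2 ^ q` partial assignments with at least `q` values each is avoided by
some assignment. -/
theorem exists_avoid {I δ : Type*} [Fintype I] [DecidableEq I] (V : Finset δ)
    (C : δ → Finset I) (g : δ → I → Bool) (q : ℕ) (hC : ∀ d ∈ V, q ≤ (C d).card)
    (h : V.card < 2 ^ q) : ∃ f : I → Bool, ∀ d ∈ V, ∃ c ∈ C d, f c ≠ g d c := by
  classical
  by_contra hcon
  push Not at hcon
  have h1 : (univ : Finset (I → Bool)) ⊆ V.biUnion fun d =>
      Fintype.piFinset fun c => if c ∈ C d then ({g d c} : Finset Bool) else univ := by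
    intro f _
    obtain ⟨d, hd, hf⟩ := hcon f
    refine mem_biUnion.2 ⟨d, hd, Fintype.mem_piFinset.2 fun c => ?_⟩
    split_ifs with hc
    · exact mem_singleton.2 (hf c hc)
    · exact mem_univ _
  have h2 := (card_le_card h1).trans card_biUnion_le
  have h3 : ∀ d ∈ V, (Fintype.piFinset fun c =>
      if c ∈ C d then ({g d c} : Finset Bool) else univ).card * 2 ^ q ≤ 2 ^ Fintype.card I := by
    intro d hd
    rw [← card_agree (C d) (g d)]
    exact Nat.mul_le_mul_left _ (Nat.pow_le_pow_right (by norm_num) (hC d hd))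
  have h4 : 2 ^ Fintype.card I * 2 ^ q ≤ V.card * 2 ^ Fintype.card I := by
    have e1 : (univ : Finset (I → Bool)).card = 2 ^ Fintype.card I := by
      rw [card_univ, Fintype.card_fun, Fintype.card_bool]
    rw [← e1]
    refine (Nat.mul_le_mul_right _ h2).trans ?_
    rw [sum_mul, ← smul_eq_mul (V.card), ← sum_const]
    rw [e1]
    exact sum_le_sum h3
  have h5 : 0 < 2 ^ Fintype.card I := by positivity
  have h6 : V.card * 2 ^ Fintype.card I < 2 ^ q * 2 ^ Fintype.card I :=
    Nat.mul_lt_mul_of_pos_right h h5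
  rw [mul_comm (2 ^ q)] at h6
  omega

/-- The index of the pair which contains `j`. -/
def half (j : Fin n) : Fin n := ⟨j.val / 2, by omega⟩

/-- For each pigeon, one of the two slots of each pair of slots is chosen by `f`. -/
def graphOf (f : Fin m × Fin n → Bool) : Finset (Fin m × Fin n) :=
  univ.filter fun e => f (e.1, half (half e.2)) = decide ((half e.2).val % 2 = 1)

theorem card_graph {β : Finset (Fin m × Fin n)}
    (hslot : ∀ s < n / 2, ∃ j : Fin n, j.val / 2 = s ∧ FreeHole β j)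
    (f : Fin m × Fin n → Bool) (i : Fin m) :
    n / 2 / 2 ≤ (avail (graphOf f) β i).card := by
  classical
  choose y hy1 hy2 using hslot
  have h1 : (univ : Finset (Fin (n / 2 / 2))).card = n / 2 / 2 := by
    rw [card_univ, Fintype.card_fin]
  conv_lhs => rw [← h1]
  let s : Fin (n / 2 / 2) → ℕ := fun b => 2 * b.val +
    (if f (i, ⟨b.val, by omega⟩) = true then 1 else 0)
  have hs : ∀ b, s b < n / 2 := by
    intro b
    simp only [s]
    split_ifs <;> omega
  have hs2 : ∀ b, s b / 2 = b.val := by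
    intro b
    simp only [s]
    split_ifs <;> omega
  refine card_le_card_of_injOn (fun b => y (s b) (hs b)) ?_ ?_
  · intro b _
    rw [mem_coe]
    unfold avail
    rw [mem_filter]
    refine ⟨mem_univ _, ?_, hy2 _ _⟩
    unfold graphOf
    rw [mem_filter]
    refine ⟨mem_univ _, ?_⟩
    have h3 : (half (y (s b) (hs b))).val = s b := by
      unfold half
      simp only
      exact hy1 _ _
    have h2 : half (half (y (s b) (hs b))) = ⟨b.val, by omega⟩ := by
      refine Fin.ext ?_
      change (half (y (s b) (hs b))).val / 2 = b.val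
      rw [h3, hs2]
    simp only [h2, h3]
    by_cases hf : f (i, ⟨b.val, by omega⟩) = true
    · have h4 : s b = 2 * b.val + 1 := by simp only [s, hf, if_true]
      rw [hf, h4]
      simp
    · have h4 : s b = 2 * b.val := by simp only [s, hf]; simp
      rw [h4]
      simp at hf
      simp [hf]
  · intro a _ b _ hab
    simp only at hab
    have h2 := hy1 _ (hs a)
    have h3 := hy1 _ (hs b)
    rw [hab] at h2
    have h4 := hs2 a
    have h5 := hs2 b
    ext
    omega

theorem zero_mem {l : ℕ} {J : Ideal (Poly F m n)} {A : Set (Poly F m n)}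
    {M : ℕ → Finset (Poly F m n)} (hM : IsRefutation J A l M) :
    (0 : ((Fin m × Fin n) × Bool) →₀ ℕ) ∈ monos (M l) := by
  classical
  unfold monos
  rw [mem_biUnion]
  refine ⟨1, hM.one_mem, ?_⟩
  rw [MvPolynomial.mem_support_iff]
  simp

theorem few (hmn : n < m) (J : Ideal (Poly F m n)) (A : Set (Poly F m n))
    (hJ : J ≤ matchIdeal F m n) (hA : A ⊆ pigeonAxioms F m n) (l : ℕ)
    (M : ℕ → Finset (Poly F m n)) (hM : IsRefutation J A l M) (q : ℕ)
    (hq : (long q l M).card < 2 ^ q) :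
    n ^ 2 ≤ 8222 * m * q * MSp l M := by
  classical
  have hlong : ∀ t ≤ l, ∀ d ∈ monos (M t),
      (q ≤ (plus d).card ∨ 64 * m * q ≤ (minus d).card) → d ∈ long q l M := by
    intro t ht d hd h
    unfold long
    exact mem_filter.2 ⟨mem_biUnion.2 ⟨t, mem_range.2 (by omega), hd⟩, h⟩
  have hq1 : 1 ≤ q := by
    rcases Nat.eq_zero_or_pos q with h | h
    · exfalso
      subst h
      have h1 := hlong l le_rfl 0 (zero_mem hM) (Or.inl (Nat.zero_le _))
      have h2 := card_pos.2 ⟨_, h1⟩
      rw [pow_zero] at hq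
      omega
    · exact h
  have hs1 : 1 ≤ MSp l M := (card_pos.2 ⟨_, zero_mem hM⟩).trans_le (le_MSp le_rfl)
  obtain ⟨β, hβ, hslot, hkill⟩ := exists_kill hmn
    ((long q l M).filter fun d => 64 * m * q ≤ (minus d).card) minus q
    (fun d hd => (mem_filter.1 hd).2) ((card_le_card (filter_subset _ _)).trans_lt hq)
  rcases Nat.eq_zero_or_pos n with hn | hn
  · subst hn
    simp
  have hn0 : ∀ d i, i ∈ Par.pos β d → ∃ j, d ((i, j), true) ≠ 0 := fun d i h =>
    (mem_filter.1 h).2.2
  have : Nonempty (Fin n) := ⟨⟨0, hn⟩⟩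
  choose! jj hjj using hn0
  have hC : ∀ d ∈ (long q l M).filter fun d => q ≤ (Par.pos β d).card,
      q ≤ ((Par.pos β d).image fun i => (i, half (half (jj d i)))).card := by
    intro d hd
    rw [mem_filter] at hd
    rw [card_image_of_injective _ fun a b hab => (Prod.mk.inj hab).1]
    exact hd.2
  obtain ⟨f, hf⟩ := exists_avoid ((long q l M).filter fun d => q ≤ (Par.pos β d).card)
    (fun d => (Par.pos β d).image fun i => (i, half (half (jj d i))))
    (fun d c => decide ((half (jj d c.1)).val % 2 = 1)) q hC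
    ((card_le_card (filter_subset _ _)).trans_lt hq)
  have hmain := bound hβ (graphOf f) (n / 8) q (64 * m * q) (n / 2 / 2) hq1
    (fun i _ => card_graph hslot f i) hmn J A hJ hA l M hM ?_
  · set s := MSp l M with hs
    have e1 : s * (64 * m * q) / (n / 8 + 1) * (n / 8 + 1) ≤ s * (64 * m * q) :=
      Nat.div_mul_le_self _ _
    set a := s * (64 * m * q) / (n / 8 + 1) with ha
    have e2 : n ≤ 8 * (n / 8 + 1) := by omega
    have e3 : a * n ≤ 512 * (m * q * s) := by
      calc a * n ≤ a * (8 * (n / 8 + 1)) := Nat.mul_le_mul_left _ e2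
        _ = 8 * (a * (n / 8 + 1)) := by ring
        _ ≤ 8 * (s * (64 * m * q)) := Nat.mul_le_mul_left _ e1
        _ = 512 * (m * q * s) := by ring
    have e4 : n ≤ 8 * (s * q) + 8 * s + 16 * a + 14 := by omega
    have e5 : s * q * n ≤ m * q * s := by
      calc s * q * n = n * q * s := by ring
        _ ≤ m * q * s := Nat.mul_le_mul_right _ (Nat.mul_le_mul_right _ hmn.le)
    have e6 : s * n ≤ m * q * s := by
      calc s * n = n * 1 * s := by ring
        _ ≤ m * q * s := Nat.mul_le_mul_right _ (Nat.mul_le_mul hmn.le hq1)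
    have e7 : n ≤ m * q * s := by
      calc n = n * 1 * 1 := by ring
        _ ≤ m * q * s := Nat.mul_le_mul (Nat.mul_le_mul hmn.le hq1) hs1
    calc n ^ 2 = n * n := by ring
      _ ≤ (8 * (s * q) + 8 * s + 16 * a + 14) * n := Nat.mul_le_mul_right _ e4
      _ = 8 * (s * q * n) + 8 * (s * n) + 16 * (a * n) + 14 * n := by ring
      _ ≤ 8 * (m * q * s) + 8 * (m * q * s) + 16 * (512 * (m * q * s)) + 14 * (m * q * s) := by
          omega
      _ = 8222 * m * q * s := by ring
  · intro t ht d hd hz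
    constructor
    · by_contra h1
      push Not at h1
      have h2 : d ∈ (long q l M).filter fun d => 64 * m * q ≤ (minus d).card :=
        mem_filter.2 ⟨hlong t ht d hd (Or.inr h1.le), h1.le⟩
      obtain ⟨e, he, he'⟩ := hkill d h2
      unfold minus at he'
      rw [mem_filter] at he'
      exact hz fun ν _ h3 _ h4 => h4.2 e he'.2 (h3 he)
    · by_contra h1
      push Not at h1
      have h2 : (Par.pos β d).card ≤ (plus d).card := by
        have h3 : Par.pos β d ⊆ (plus d).image Prod.fst := by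
          intro i hi
          unfold Par.pos at hi
          rw [mem_filter] at hi
          obtain ⟨_, _, j, hj⟩ := hi
          unfold plus
          exact mem_image.2 ⟨(i, j), mem_filter.2 ⟨mem_univ _, hj⟩, rfl⟩
        exact (card_le_card h3).trans card_image_le
      have h3 : d ∈ (long q l M).filter fun d => q ≤ (Par.pos β d).card :=
        mem_filter.2 ⟨hlong t ht d hd (Or.inl (h1.le.trans h2)), h1.le⟩
      obtain ⟨c, hc, hfc⟩ := hf d h3
      rw [mem_image] at hc
      obtain ⟨i, hi, rfl⟩ := hc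
      refine hz fun ν _ _ h4 ha => ?_
      have h5 := ha.1 (i, jj d i) (hjj d i hi)
      rcases h4 _ h5 with h6 | h6
      · exact (mem_filter.1 hi).2.1 _ h6
      · unfold graphOf at h6
        rw [mem_filter] at h6
        exact hfc h6.2

theorem card_long_le {q l : ℕ} {M : ℕ → Finset (Poly F m n)} (h0 : M 0 = ∅) :
    (long q l M).card ≤ l * MSp l M := by
  classical
  unfold long
  refine (card_filter_le _ _).trans (card_biUnion_le.trans ?_)
  rw [sum_range_succ']
  have h1 : (monos (M 0)).card = 0 := by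
    rw [h0]
    unfold monos
    simp
  rw [h1, add_zero]
  refine (sum_le_sum fun t ht => le_MSp (M := M) (l := l)
    (by rw [mem_range] at ht; omega)).trans ?_
  rw [sum_const, card_range, smul_eq_mul]

end Final

/-- Let `M 0, …, M l` be a semantic polynomial calculus refutation of the functional pigeonhole
principle with `m > n` pigeons and `n` holes over any field, for the conventions of the problem, or
more generally with the ideal of the Boolean axioms enlarged to all polynomials which vanish at all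
partial matchings, and the axioms to all polynomials which vanish at all partial matchings that
match some fixed pigeon.
(1) If fewer than `2 ^ q` distinct monomials of the refutation have at least `q` unbarred or at
least `64 m q` barred variables, then `n ^ 2 ≤ 8222 m q MSp`.
(2) In particular this holds if `l MSp < 2 ^ q`. -/
theorem result (F : Type*) [Field F] (m n : ℕ) (hmn : n < m) (l : ℕ)
    (M : ℕ → Finset (Poly F m n))
    (hM : IsRefutation (boolIdeal F m n) (fPHP F m n) l M ∨
      IsRefutation (matchIdeal F m n) (pigeonAxioms F m n) l M) :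
    (∀ q : ℕ, (long q l M).card < 2 ^ q → n ^ 2 ≤ 8222 * m * q * MSp l M) ∧
    (∀ q : ℕ, l * MSp l M < 2 ^ q → n ^ 2 ≤ 8222 * m * q * MSp l M) := by
  have h1 : ∀ q : ℕ, (long q l M).card < 2 ^ q → n ^ 2 ≤ 8222 * m * q * MSp l M := by
    intro q hq
    rcases hM with hM | hM
    · exact few hmn _ _ bool_le (fPHP_sub (by omega)) l M hM q hq
    · exact few hmn _ _ le_rfl (fun _ h => h) l M hM q hq
  have h0 : M 0 = ∅ := by
    rcases hM with hM | hM
    · exact hM.zero
    · exact hM.zero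
  exact ⟨h1, fun q hq => h1 q ((card_long_le h0).trans_lt hq)⟩

end Pool.Agent.Results.MP_96e433_lc.FewMonomials
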