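import Mathlib

set_option autoImplicit false

open Finset MvPolynomial

namespace Pool.Agent.Results.MP_96e433_lc.MiddleMonomials

/-- Polynomials over `F` in the variables `x e` and their twins `xbar e`, where `e = (i, j)`
ranges over the pairs of a pigeon `i` and a hole `j`. -/
abbrev Poly (F : Type*) [CommRing F] (m n : ℕ) : Type _ :=
  MvPolynomial ((Fin m × Fin n) × Bool) F

section Defs

variable (F : Type*) [Field F] (m n : ℕ)

/-- The variable `x_{ij}`, `e = (i, j)`. -/
noncomputable def x (e : Fin m × Fin n) : Poly F m n := X (e, true)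

/-- The twin variable of `x_{ij}`, `e = (i, j)`. -/
noncomputable def xbar (e : Fin m × Fin n) : Poly F m n := X (e, false)

/-- The ideal `I` generated by the Boolean axioms. -/
noncomputable def boolIdeal : Ideal (Poly F m n) :=
  Ideal.span {p | ∃ e, p = x F m n e ^ 2 - x F m n e ∨ p = x F m n e + xbar F m n e - 1}

/-- The encodings of the clauses of `fPHP`: injectivity, functionality and totality. -/
def fPHP : Set (Poly F m n) :=
  {p | ∃ i i' j, i ≠ i' ∧ p = x F m n (i, j) * x F m n (i', j)} ∪
  {p | ∃ i j j', j ≠ j' ∧ p = x F m n (i, j) * x F m n (i, j')} ∪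
  {p | ∃ i, p = ∏ j, xbar F m n (i, j)}

variable {F m n}

/-- A semantic polynomial calculus refutation `M 0, …, M l` of `P` over the ideal `J`. -/
structure IsRefutation (J : Ideal (Poly F m n)) (P : Set (Poly F m n)) (l : ℕ)
    (M : ℕ → Finset (Poly F m n)) : Prop where
  zero : M 0 = ∅
  one_mem : 1 ∈ M l
  step : ∀ t < l, ∃ p ∈ P ∪ {0}, ∀ q ∈ M (t + 1),
    q ∈ Ideal.span (M t : Set (Poly F m n)) ⊔ J ⊔ Ideal.span {p}

open Classical in
/-- The distinct monomials which occur in the polynomials of a configuration. -/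
noncomputable def monos (C : Finset (Poly F m n)) : Finset (((Fin m × Fin n) × Bool) →₀ ℕ) :=
  C.biUnion fun p => p.support

/-- The monomial space of `M 0, …, M l`. -/
noncomputable def MSp (l : ℕ) (M : ℕ → Finset (Poly F m n)) : ℕ :=
  (range (l + 1)).sup fun t => (monos (M t)).card

/-- `μ` is a partial matching: two of its edges which share the pigeon or the hole are equal. -/
def IsPartialMatching (μ : Finset (Fin m × Fin n)) : Prop :=
  ∀ e ∈ μ, ∀ f ∈ μ, (e.1 = f.1 ∨ e.2 = f.2) → e = f

variable (F) in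
/-- The 0-1 point of `μ`: `x e = 1` and `xbar e = 0` for `e ∈ μ`, `x e = 0` and `xbar e = 1` for
`e ∉ μ`. -/
def point (μ : Finset (Fin m × Fin n)) : (Fin m × Fin n) × Bool → F :=
  fun v => if (decide (v.1 ∈ μ)) = v.2 then 1 else 0

variable (F m n)

/-- The ideal of all polynomials which vanish at all partial matchings. -/
noncomputable def matchIdeal : Ideal (Poly F m n) :=
  ⨅ (μ : Finset (Fin m × Fin n)) (_ : IsPartialMatching μ), RingHom.ker (eval (point F μ))

/-- The polynomials `p` for which there is a pigeon `i` such that `p` vanishes at all partial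
matchings which match `i`. -/
def pigeonAxioms : Set (Poly F m n) :=
  {p | ∃ i : Fin m, ∀ μ : Finset (Fin m × Fin n), IsPartialMatching μ → (∃ j, (i, j) ∈ μ) →
      eval (point F μ) p = 0}

variable {m n}

/-- The value of the monomial `d` at the point of `μ` is one. -/
def Alive (μ : Finset (Fin m × Fin n)) (d : ((Fin m × Fin n) × Bool) →₀ ℕ) : Prop :=
  (∀ e, d (e, true) ≠ 0 → e ∈ μ) ∧ ∀ e, d (e, false) ≠ 0 → e ∉ μ

/-- The pigeon `i` is not matched by `β`. -/
def FreePigeon (β : Finset (Fin m × Fin n)) (i : Fin m) : Prop := ∀ j, (i, j) ∉ β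

/-- The hole `j` is not matched by `β`. -/
def FreeHole (β : Finset (Fin m × Fin n)) (j : Fin n) : Prop := ∀ i, (i, j) ∉ β

open Classical in
/-- The free holes `j` such that the barred variable of `(i, j)` occurs in the monomial `d`. -/
noncomputable def barred (β : Finset (Fin m × Fin n)) (d : ((Fin m × Fin n) × Bool) →₀ ℕ)
    (i : Fin m) : Finset (Fin n) :=
  univ.filter fun j => FreeHole β j ∧ d ((i, j), false) ≠ 0

open Classical in
/-- The free holes `j` such that the barred variable of `(i, j)` does not occur in `d`. -/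
noncomputable def missing (β : Finset (Fin m × Fin n)) (d : ((Fin m × Fin n) × Bool) →₀ ℕ)
    (i : Fin m) : Finset (Fin n) :=
  univ.filter fun j => FreeHole β j ∧ d ((i, j), false) = 0

/-- The monomial `d` has, for each free pigeon, at most `k` barred variables at free holes. -/
def Light (β : Finset (Fin m × Fin n)) (k : ℕ) (d : ((Fin m × Fin n) × Bool) →₀ ℕ) : Prop :=
  ∀ i, FreePigeon β i → (barred β d i).card ≤ k

/-- The monomial `d` has, for some free pigeon, all but at most `k` of the barred variables at free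
holes. -/
def NearlyFull (β : Finset (Fin m × Fin n)) (k : ℕ) (d : ((Fin m × Fin n) × Bool) →₀ ℕ) : Prop :=
  ∃ i, FreePigeon β i ∧ (missing β d i).card ≤ k

open Classical in
/-- There are more than `T` free pigeons for each of which the monomial `d` has more than `T`
barred variables at free holes. -/
def Rich (β : Finset (Fin m × Fin n)) (T : ℕ) (d : ((Fin m × Fin n) × Bool) →₀ ℕ) : Prop :=
  T < (univ.filter fun i => FreePigeon β i ∧ T < (barred β d i).card).card

open Classical in
/-- The weight of the monomial `d`: `1` if its value at `β` is zero, otherwise the least `k` such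
that `d` is light or nearly full with this `k`, and `0` if `d` is rich. -/
noncomputable def weight (β : Finset (Fin m × Fin n)) (T : ℕ)
    (d : ((Fin m × Fin n) × Bool) →₀ ℕ) : ℕ :=
  if Alive β d then sInf {k | Light β k d ∨ NearlyFull β k d ∨ Rich β T d} else 1

end Defs

section Proof

variable {F : Type*} [Field F] {m n : ℕ}

theorem eval_mono (μ : Finset (Fin m × Fin n)) (d : ((Fin m × Fin n) × Bool) →₀ ℕ)
    [Decidable (Alive μ d)] :
    d.prod (fun v k => point F μ v ^ k) = if Alive μ d then 1 else 0 := by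
  classical
  split_ifs with h
  · obtain ⟨h1, h2⟩ := h
    refine Finset.prod_eq_one ?_
    rintro ⟨e, b⟩ hv
    rw [Finsupp.mem_support_iff] at hv
    have : point F μ (e, b) = 1 := by
      unfold point
      cases b with
      | true => simp [h1 e hv]
      | false => simp [h2 e hv]
    change point F μ (e, b) ^ d (e, b) = 1
    rw [this, one_pow]
  · unfold Alive at h
    rw [not_and_or] at h
    rcases h with h | h
    · push Not at h
      obtain ⟨e, hd, hem⟩ := h
      refine Finset.prod_eq_zero (i := (e, true)) (by rwa [Finsupp.mem_support_iff]) ?_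
      have : point F μ (e, true) = 0 := by simp [point, hem]
      change point F μ (e, true) ^ d (e, true) = 0
      rw [this, zero_pow hd]
    · push Not at h
      obtain ⟨e, hd, hem⟩ := h
      refine Finset.prod_eq_zero (i := (e, false)) (by rwa [Finsupp.mem_support_iff]) ?_
      have : point F μ (e, false) = 0 := by simp [point, hem]
      change point F μ (e, false) ^ d (e, false) = 0
      rw [this, zero_pow hd]

theorem isPM_insert {μ : Finset (Fin m × Fin n)} (hμ : IsPartialMatching μ) {i : Fin m}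
    {j : Fin n} (hi : ∀ j', (i, j') ∉ μ) (hj : ∀ i', (i', j) ∉ μ) :
    IsPartialMatching (insert (i, j) μ) := by
  rintro ⟨a, b⟩ he ⟨c, d⟩ hf h
  rw [mem_insert] at he hf
  rcases he with he | he <;> rcases hf with hf | hf
  · rw [he, hf]
  · obtain ⟨rfl, rfl⟩ := Prod.mk.inj he
    rcases h with h | h
    · exact absurd hf (by simp only at h; rw [← h]; exact hi _)
    · exact absurd hf (by simp only at h; rw [← h]; exact hj _)
  · obtain ⟨rfl, rfl⟩ := Prod.mk.inj hf
    rcases h with h | h
    · exact absurd he (by simp only at h; rw [h]; exact hi _)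
    · exact absurd he (by simp only at h; rw [h]; exact hj _)
  · exact hμ _ he _ hf h

theorem weight_of_not {β : Finset (Fin m × Fin n)} {T : ℕ}
    {d : ((Fin m × Fin n) × Bool) →₀ ℕ} (h : ¬ Alive β d) : weight β T d = 1 := by
  unfold weight
  rw [if_neg h]

theorem weight_spec {β : Finset (Fin m × Fin n)} {T : ℕ}
    {d : ((Fin m × Fin n) × Bool) →₀ ℕ} (h : Alive β d) :
    Light β (weight β T d) d ∨ NearlyFull β (weight β T d) d ∨ Rich β T d := by
  have h1 : weight β T d = sInf {k | Light β k d ∨ NearlyFull β k d ∨ Rich β T d} := by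
    unfold weight
    rw [if_pos h]
  have h2 : ({k | Light β k d ∨ NearlyFull β k d ∨ Rich β T d} : Set ℕ).Nonempty := by
    refine ⟨n, Or.inl fun i _ => ?_⟩
    exact (card_le_univ _).trans (by rw [Fintype.card_fin])
  have h3 := Nat.sInf_mem h2
  rw [← h1] at h3
  exact h3

theorem weight_le {β : Finset (Fin m × Fin n)} {T k : ℕ} (hk : 0 < k)
    {d : ((Fin m × Fin n) × Bool) →₀ ℕ}
    (h : Alive β d → Light β k d ∨ NearlyFull β k d ∨ Rich β T d) : weight β T d ≤ k := by
  by_cases ha : Alive β d
  · have h1 : weight β T d = sInf {k | Light β k d ∨ NearlyFull β k d ∨ Rich β T d} := by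
      unfold weight
      rw [if_pos ha]
    rw [h1]
    exact Nat.sInf_le (h ha)
  · rw [weight_of_not ha]
    exact hk

/-- The monomial `d` has an unbarred variable outside `β`. -/
def HasPos (β : Finset (Fin m × Fin n)) (d : ((Fin m × Fin n) × Bool) →₀ ℕ) : Prop :=
  ∃ e : Fin m × Fin n, e ∉ β ∧ d (e, true) ≠ 0

open Classical in
/-- The edges which are avoided because of the monomial `d`. -/
noncomputable def ex (β : Finset (Fin m × Fin n)) (T : ℕ)
    (d : ((Fin m × Fin n) × Bool) →₀ ℕ) : Finset (Fin m × Fin n) :=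
  if h : HasPos β d then {h.choose}
  else if Light β (weight β T d) d then
    univ.filter fun e => FreePigeon β e.1 ∧ FreeHole β e.2 ∧ d (e, false) ≠ 0
  else if h : NearlyFull β (weight β T d) d then
    univ.filter fun e => e.1 = h.choose ∧ FreeHole β e.2 ∧ d (e, false) = 0
  else ∅

theorem ex_out {β : Finset (Fin m × Fin n)} {T : ℕ} {d : ((Fin m × Fin n) × Bool) →₀ ℕ}
    {e : Fin m × Fin n} (he : e ∈ ex β T d) : e ∉ β := by
  classical
  unfold ex at he
  split_ifs at he with h1 h2 h3
  · rw [mem_singleton] at he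
    rw [he]
    exact h1.choose_spec.1
  · exact (mem_filter.1 he).2.1 e.2
  · exact (mem_filter.1 he).2.2.1 e.1
  · exact absurd he (notMem_empty _)

theorem card_ex (β : Finset (Fin m × Fin n)) (T : ℕ)
    (d : ((Fin m × Fin n) × Bool) →₀ ℕ)
    (i : Fin m) : (univ.filter fun j => (i, j) ∈ ex β T d).card ≤ weight β T d := by
  classical
  unfold ex
  split_ifs with h1 h2 h3
  · have h2 : ¬ Alive β d := by
      obtain ⟨e, he, he'⟩ := h1
      exact fun h => he (h.1 e he')
    rw [weight_of_not h2]
    refine card_le_one.2 ?_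
    intro a ha b hb
    rw [mem_filter, mem_singleton] at ha hb
    exact (Prod.mk.inj (ha.2.trans hb.2.symm)).2
  · by_cases hi : FreePigeon β i
    · refine le_trans (card_le_card ?_) (h2 i hi)
      intro j hj
      rw [mem_filter, mem_filter] at hj
      unfold barred
      exact mem_filter.2 ⟨mem_univ _, hj.2.2.2.1, hj.2.2.2.2⟩
    · refine le_trans (le_of_eq ?_) (Nat.zero_le _)
      rw [card_eq_zero, filter_eq_empty_iff]
      intro j _ hj
      rw [mem_filter] at hj
      exact hi hj.2.1
  · by_cases hi : i = h3.choose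
    · refine le_trans (card_le_card ?_) h3.choose_spec.2
      intro j hj
      rw [mem_filter, mem_filter] at hj
      refine mem_filter.2 ⟨mem_univ _, hj.2.2.2.1, ?_⟩
      rw [← hi]
      exact hj.2.2.2.2
    · refine le_trans (le_of_eq ?_) (Nat.zero_le _)
      rw [card_eq_zero, filter_eq_empty_iff]
      intro j _ hj
      rw [mem_filter] at hj
      exact hi hj.2.1
  · simp

/-- `ν` avoids the edges of all `ex β T d`, `d ∈ D`. -/
def Good (β : Finset (Fin m × Fin n)) (T : ℕ) (D : Finset (((Fin m × Fin n) × Bool) →₀ ℕ))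
    (ν : Finset (Fin m × Fin n)) : Prop :=
  ∀ e ∈ ν, ∀ d ∈ D, e ∉ ex β T d

open Classical in
/-- The holes which are excluded for the pigeon `i`. -/
theorem card_excl (β : Finset (Fin m × Fin n)) (T : ℕ)
    (D : Finset (((Fin m × Fin n) × Bool) →₀ ℕ)) (i : Fin m) :
    (D.biUnion fun d => univ.filter fun j => (i, j) ∈ ex β T d).card ≤ ∑ d ∈ D, weight β T d :=
  card_biUnion_le.trans (sum_le_sum fun d _ => card_ex β T d i)

theorem add_edge {β : Finset (Fin m × Fin n)} {T : ℕ}
    {D : Finset (((Fin m × Fin n) × Bool) →₀ ℕ)}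
    {ν : Finset (Fin m × Fin n)} (hν : IsPartialMatching ν) (hg : Good β T D ν) {i : Fin m}
    {j : Fin n} (hi : ∀ j', (i, j') ∉ ν) (hj : ∀ i', (i', j) ∉ ν)
    (hj' : j ∉ D.biUnion fun d => univ.filter fun j => (i, j) ∈ ex β T d) :
    IsPartialMatching (insert (i, j) ν) ∧ Good β T D (insert (i, j) ν) := by
  classical
  refine ⟨isPM_insert hν hi hj, ?_⟩
  intro e he d hd
  rw [mem_insert] at he
  rcases he with rfl | he
  · intro h
    exact hj' (mem_biUnion.2 ⟨d, hd, mem_filter.2 ⟨mem_univ _, h⟩⟩)
  · exact hg e he d hd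

theorem add_pigeon {β : Finset (Fin m × Fin n)} {T : ℕ} (hn : β.card + T < n)
    {D : Finset (((Fin m × Fin n) × Bool) →₀ ℕ)} (hD : ∑ d ∈ D, (1 + weight β T d) ≤ T)
    {ν : Finset (Fin m × Fin n)} (hν : IsPartialMatching ν) (hg : Good β T D ν)
    (hc : ν.card ≤ β.card + D.card) (i : Fin m) :
    ∃ ν', ν ⊆ ν' ∧ IsPartialMatching ν' ∧ Good β T D ν' ∧ ν'.card ≤ ν.card + 1 ∧
      ∃ j, (i, j) ∈ ν' := by
  classical
  by_cases hi : ∃ j, (i, j) ∈ ν
  · exact ⟨ν, Subset.rfl, hν, hg, by omega, hi⟩
  · push Not at hi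
    have h1 := card_excl β T D i
    rw [sum_add_distrib, sum_const, smul_eq_mul, mul_one] at hD
    obtain ⟨j, hj⟩ : ∃ j, j ∉ ν.image Prod.snd ∪
        D.biUnion fun d => univ.filter fun j => (i, j) ∈ ex β T d := by
      by_contra hcon
      push Not at hcon
      have h2 := card_le_card (fun j (_ : j ∈ (univ : Finset (Fin n))) => hcon j)
      rw [card_univ, Fintype.card_fin] at h2
      have h3 := h2.trans (card_union_le _ _)
      have h4 : (ν.image Prod.snd).card ≤ ν.card := card_image_le
      omega
    rw [mem_union, not_or] at hj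
    obtain ⟨h2, h3⟩ := add_edge hν hg hi (fun i' h => hj.1 (mem_image.2 ⟨_, h, rfl⟩)) hj.2
    exact ⟨_, subset_insert _ _, h2, h3, card_insert_le _ _, j, mem_insert_self _ _⟩

theorem add_rich {β : Finset (Fin m × Fin n)} {T : ℕ}
    {D : Finset (((Fin m × Fin n) × Bool) →₀ ℕ)} (hD : ∑ d ∈ D, (1 + weight β T d) ≤ T)
    {ν : Finset (Fin m × Fin n)} (hν : IsPartialMatching ν)
    (hg : Good β T D ν) (hc : (ν \ β).card ≤ D.card)
    {d : ((Fin m × Fin n) × Bool) →₀ ℕ} (hd : Rich β T d) :
    ∃ ν', ν ⊆ ν' ∧ IsPartialMatching ν' ∧ Good β T D ν' ∧ ν'.card ≤ ν.card + 1 ∧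
      ∃ e ∈ ν', d (e, false) ≠ 0 := by
  classical
  rw [sum_add_distrib, sum_const, smul_eq_mul, mul_one] at hD
  obtain ⟨i, hi1, hi2⟩ : ∃ i, T < (barred β d i).card ∧ ∀ j, (i, j) ∉ ν := by
    by_contra hcon
    push Not at hcon
    have h2 : (univ.filter fun i => FreePigeon β i ∧ T < (barred β d i).card) ⊆
        (ν \ β).image Prod.fst := by
      intro i hi
      rw [mem_filter] at hi
      obtain ⟨j, hj⟩ := hcon i hi.2.2
      exact mem_image.2 ⟨_, mem_sdiff.2 ⟨hj, hi.2.1 j⟩, rfl⟩
    have h3 := (card_le_card h2).trans card_image_le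
    unfold Rich at hd
    omega
  have h1 := card_excl β T D i
  obtain ⟨j, hj1, hj2⟩ : ∃ j ∈ barred β d i, j ∉ (ν \ β).image Prod.snd ∪
      D.biUnion fun d => univ.filter fun j => (i, j) ∈ ex β T d := by
    by_contra hcon
    push Not at hcon
    have h2 := card_le_card (fun j (hj : j ∈ barred β d i) => hcon j hj)
    have h3 := h2.trans (card_union_le _ _)
    have h4 : ((ν \ β).image Prod.snd).card ≤ (ν \ β).card := card_image_le
    omega
  rw [mem_union, not_or] at hj2
  unfold barred at hj1
  rw [mem_filter] at hj1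
  have hjfree : ∀ i', (i', j) ∉ ν := by
    intro i' h
    by_cases hb : (i', j) ∈ β
    · exact hj1.2.1 i' hb
    · exact hj2.1 (mem_image.2 ⟨_, mem_sdiff.2 ⟨h, hb⟩, rfl⟩)
  obtain ⟨h2, h3⟩ := add_edge hν hg hi2 hjfree hj2.2
  exact ⟨_, subset_insert _ _, h2, h3, card_insert_le _ _, (i, j), mem_insert_self _ _, hj1.2.2⟩

/-- A good partial matching which kills all monomials that are to be killed. -/
theorem exists_good {β : Finset (Fin m × Fin n)} {T : ℕ} (hn : β.card + T < n)
    {D : Finset (((Fin m × Fin n) × Bool) →₀ ℕ)} (hD : ∑ d ∈ D, (1 + weight β T d) ≤ T)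
    (hβ : IsPartialMatching β)
    (D' : Finset (((Fin m × Fin n) × Bool) →₀ ℕ)) :
    D' ⊆ D → ∃ ν : Finset (Fin m × Fin n), β ⊆ ν ∧ IsPartialMatching ν ∧ Good β T D ν ∧
      ν.card ≤ β.card + D'.card ∧
      ∀ d ∈ D', Alive β d → ¬ Light β (weight β T d) d → ∃ e ∈ ν, d (e, false) ≠ 0 := by
  classical
  induction D' using Finset.induction_on with
  | empty =>
    intro _
    exact ⟨β, Subset.rfl, hβ, fun e he d _ h => ex_out h he,
      by rw [card_empty]; omega, fun d hd => absurd hd (notMem_empty _)⟩
  | insert d D' hd ih =>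
    intro hsub
    obtain ⟨ν, h0, h1, h2, h3, h4⟩ := ih ((subset_insert _ _).trans hsub)
    have hdD : d ∈ D := hsub (mem_insert_self _ _)
    have hcard : D'.card + 1 ≤ D.card := by
      rw [← card_insert_of_notMem hd]
      exact card_le_card hsub
    by_cases hp : Alive β d
    swap
    · refine ⟨ν, h0, h1, h2, by rw [card_insert_of_notMem hd]; omega, ?_⟩
      intro d' hd'
      rw [mem_insert] at hd'
      rcases hd' with rfl | hd'
      · exact fun h => absurd h hp
      · exact h4 d' hd'
    by_cases hl : Light β (weight β T d) d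
    · refine ⟨ν, h0, h1, h2, by rw [card_insert_of_notMem hd]; omega, ?_⟩
      intro d' hd'
      rw [mem_insert] at hd'
      rcases hd' with rfl | hd'
      · exact fun _ h => absurd hl h
      · exact h4 d' hd'
    have hnp : ¬ HasPos β d := fun ⟨e, he, he'⟩ => he (hp.1 e he')
    have hνβ : (ν \ β).card ≤ D.card := by
      rw [card_sdiff_of_subset h0]
      omega
    have hnew : ∃ ν', ν ⊆ ν' ∧ IsPartialMatching ν' ∧ Good β T D ν' ∧ ν'.card ≤ ν.card + 1 ∧
        ∃ e ∈ ν', d (e, false) ≠ 0 := by
      by_cases hf : NearlyFull β (weight β T d) d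
      · obtain ⟨ν', g1, g2, g3, g4, j, hj⟩ :=
          add_pigeon hn hD h1 h2 (by omega) hf.choose
        refine ⟨ν', g1, g2, g3, g4, _, hj, ?_⟩
        have := g3 _ hj d hdD
        unfold ex at this
        rw [dif_neg hnp, if_neg hl, dif_pos hf, mem_filter] at this
        intro h0'
        refine this ⟨mem_univ _, rfl, ?_, h0'⟩
        intro i' hb
        have h5 := g2 _ hj _ (g1 (h0 hb)) (Or.inr rfl)
        rw [← h5] at hb
        exact hf.choose_spec.1 j hb
      · rcases weight_spec (T := T) hp with h | h | h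
        · exact absurd h hl
        · exact absurd h hf
        · exact add_rich hD h1 h2 hνβ h
    obtain ⟨ν', g1, g2, g3, g4, e, he, hde⟩ := hnew
    refine ⟨ν', h0.trans g1, g2, g3, by rw [card_insert_of_notMem hd]; omega, ?_⟩
    intro d' hd'
    rw [mem_insert] at hd'
    rcases hd' with rfl | hd'
    · exact fun _ _ => ⟨e, he, hde⟩
    · intro a b
      obtain ⟨e', he', h'⟩ := h4 d' hd' a b
      exact ⟨e', g1 he', h'⟩

theorem alive_iff {β : Finset (Fin m × Fin n)} {T : ℕ}
    {D : Finset (((Fin m × Fin n) × Bool) →₀ ℕ)}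
    {ν : Finset (Fin m × Fin n)} (hβν : β ⊆ ν)
    (hν : IsPartialMatching ν)
    (hg : Good β T D ν) {d : ((Fin m × Fin n) × Bool) →₀ ℕ}
    (hd : d ∈ D) (hk : Alive β d → ¬ Light β (weight β T d) d → ∃ e ∈ ν, d (e, false) ≠ 0) :
    Alive ν d ↔ (Alive β d ∧ Light β (weight β T d) d) := by
  classical
  by_cases hp : HasPos β d
  · refine iff_of_false ?_ ?_
    · intro h
      have h1 := h.1 _ hp.choose_spec.2
      have h2 := hg _ h1 d hd
      unfold ex at h2
      rw [dif_pos hp] at h2
      exact h2 (mem_singleton_self _)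
    · intro h
      exact hp.choose_spec.1 (h.1.1 _ hp.choose_spec.2)
  · by_cases ha : Alive β d
    swap
    · refine iff_of_false ?_ (fun h => ha h.1)
      intro h
      apply ha
      refine ⟨fun e he => ?_, fun e he h' => h.2 e he (hβν h')⟩
      by_contra heβ
      exact hp ⟨e, heβ, he⟩
    by_cases hl : Light β (weight β T d) d
    · refine iff_of_true ?_ ⟨ha, hl⟩
      refine ⟨fun e he => hβν (ha.1 e he), fun e he h => ?_⟩
      by_cases heβ : e ∈ β
      · exact ha.2 e he heβ
      · have h3 := hg _ h d hd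
        unfold ex at h3
        rw [dif_neg hp, if_pos hl, mem_filter] at h3
        refine h3 ⟨mem_univ _, fun j hj => ?_, fun i hi => ?_, he⟩
        · have h5 := hν e h _ (hβν hj) (Or.inl rfl)
          rw [← h5] at hj
          exact heβ hj
        · have h5 := hν e h _ (hβν hi) (Or.inr rfl)
          rw [← h5] at hi
          exact heβ hi
    · refine iff_of_false ?_ (fun h => hl h.2)
      intro h
      obtain ⟨e, he, hde⟩ := hk ha hl
      exact h.2 e hde he

open Classical in
/-- The sum of the coefficients of the light monomials which are alive at `β`. -/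
noncomputable def lightSum (β : Finset (Fin m × Fin n)) (T : ℕ) (p : Poly F m n) : F :=
  ∑ d ∈ p.support, coeff d p * (if Alive β d ∧ Light β (weight β T d) d then 1 else 0)

theorem eval_eq_lightSum {β : Finset (Fin m × Fin n)} {T : ℕ}
    {D : Finset (((Fin m × Fin n) × Bool) →₀ ℕ)}
    {ν : Finset (Fin m × Fin n)} (hβν : β ⊆ ν)
    (hν : IsPartialMatching ν) (hg : Good β T D ν)
    (hk : ∀ d ∈ D, Alive β d → ¬ Light β (weight β T d) d → ∃ e ∈ ν, d (e, false) ≠ 0)
    {p : Poly F m n} (hp : p.support ⊆ D) : eval (point F ν) p = lightSum β T p := by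
  classical
  rw [MvPolynomial.eval_eq]
  unfold lightSum
  refine Finset.sum_congr rfl fun d hd => ?_
  have h1 := alive_iff hβν hν hg (hp hd) (hk d (hp hd))
  have e1 := eval_mono (F := F) ν d
  have e3 : (∏ v ∈ d.support, point F ν v ^ d v) =
      if Alive β d ∧ Light β (weight β T d) d then (1 : F) else 0 := by
    change d.prod (fun v k => point F ν v ^ k) = _
    rw [e1]
    by_cases h3 : Alive ν d
    · rw [if_pos h3, if_pos (h1.1 h3)]
    · rw [if_neg h3, if_neg (fun h4 => h3 (h1.2 h4))]
  rw [e3]

theorem bool_le : boolIdeal F m n ≤ matchIdeal F m n := by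
  classical
  unfold boolIdeal matchIdeal
  rw [Ideal.span_le]
  rintro p ⟨e, rfl | rfl⟩
  · simp only [Submodule.coe_iInf, Set.mem_iInter, SetLike.mem_coe, RingHom.mem_ker]
    intro μ _
    by_cases h : e ∈ μ <;> simp [x, point, h]
  · simp only [Submodule.coe_iInf, Set.mem_iInter, SetLike.mem_coe, RingHom.mem_ker]
    intro μ _
    by_cases h : e ∈ μ <;> simp [x, xbar, point, h]

theorem fPHP_sub (hm : 0 < m) : fPHP F m n ⊆ pigeonAxioms F m n := by
  classical
  rintro p ((⟨i, i', j, hii, rfl⟩ | ⟨i, j, j', hjj, rfl⟩) | ⟨i, rfl⟩)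
  · refine ⟨⟨0, hm⟩, fun μ hμ _ => ?_⟩
    by_cases h1 : (i, j) ∈ μ
    · by_cases h2 : (i', j) ∈ μ
      · have := hμ _ h1 _ h2 (Or.inr rfl)
        exact absurd (congrArg Prod.fst this) hii
      · simp [x, point, h2]
    · simp [x, point, h1]
  · refine ⟨⟨0, hm⟩, fun μ hμ _ => ?_⟩
    by_cases h1 : (i, j) ∈ μ
    · by_cases h2 : (i, j') ∈ μ
      · have := hμ _ h1 _ h2 (Or.inl rfl)
        exact absurd (congrArg Prod.snd this) hjj
      · simp [x, point, h2]
    · simp [x, point, h1]
  · refine ⟨i, fun μ hμ hi => ?_⟩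
    obtain ⟨j, hj⟩ := hi
    rw [map_prod]
    refine Finset.prod_eq_zero (i := j) (mem_univ _) ?_
    simp [xbar, point, hj]

theorem le_MSp {l t : ℕ} {M : ℕ → Finset (Poly F m n)} (ht : t ≤ l) :
    (monos (M t)).card ≤ MSp l M := by
  unfold MSp
  exact Finset.le_sup (f := fun t => (monos (M t)).card) (mem_range.2 (Nat.lt_succ_of_le ht))

theorem bound {β : Finset (Fin m × Fin n)} (hβ : IsPartialMatching β)
    (hmn : n < m) (J : Ideal (Poly F m n)) (P : Set (Poly F m n))
    (hJ : J ≤ matchIdeal F m n) (hP : P ⊆ pigeonAxioms F m n) (l : ℕ)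
    (M : ℕ → Finset (Poly F m n)) (hM : IsRefutation J P l M) (T : ℕ) (hn : β.card + T < n) :
    ∃ t < l, T < ∑ d ∈ monos (M t) ∪ monos (M (t + 1)), (1 + weight β T d) := by
  classical
  by_contra hcon
  push Not at hcon
  have hsupp : ∀ t, ∀ q ∈ M t, q.support ⊆ monos (M t) := by
    intro t q hq d hd
    unfold monos
    rw [mem_biUnion]
    exact ⟨q, hq, hd⟩
  -- a good matching for the monomials of two configurations which matches a given pigeon
  have hex : ∀ t < l, ∀ i : Fin m, ∃ ν : Finset (Fin m × Fin n), IsPartialMatching ν ∧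
      (∃ j, (i, j) ∈ ν) ∧ (∀ q ∈ M t, eval (point F ν) q = lightSum β T q) ∧
      (∀ q ∈ M (t + 1), eval (point F ν) q = lightSum β T q) := by
    intro t ht i
    have hD := hcon t ht
    obtain ⟨ν, a0, a1, a2, a3, a4⟩ := exists_good hn hD hβ _ Subset.rfl
    obtain ⟨ν', b1, b2, b3, _, b5⟩ := add_pigeon hn hD a1 a2 a3 i
    have hkill : ∀ d ∈ monos (M t) ∪ monos (M (t + 1)), Alive β d →
        ¬ Light β (weight β T d) d → ∃ e ∈ ν', d (e, false) ≠ 0 := by
      intro d hd u v
      obtain ⟨e, he, h'⟩ := a4 d hd u v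
      exact ⟨e, b1 he, h'⟩
    refine ⟨ν', b2, b5, fun q hq => ?_, fun q hq => ?_⟩
    · exact eval_eq_lightSum (a0.trans b1) b2 b3 hkill
        ((hsupp t q hq).trans subset_union_left)
    · exact eval_eq_lightSum (a0.trans b1) b2 b3 hkill
        ((hsupp (t + 1) q hq).trans subset_union_right)
  have key : ∀ t ≤ l, ∀ q ∈ M t, lightSum β T q = 0 := by
    intro t
    induction t with
    | zero =>
      intro _ q hq
      rw [hM.zero] at hq
      exact absurd hq (Finset.notMem_empty _)
    | succ t ih =>
      intro ht q hq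
      have ht' : t < l := by omega
      have ih' := ih ht'.le
      obtain ⟨p, hp, hstep⟩ := hM.step t ht'
      obtain ⟨i, hi⟩ : ∃ i : Fin m, ∀ μ : Finset (Fin m × Fin n), IsPartialMatching μ →
          (∃ j, (i, j) ∈ μ) → eval (point F μ) p = 0 := by
        rcases hp with hp | hp
        · exact hP hp
        · rw [Set.mem_singleton_iff] at hp
          subst hp
          exact ⟨⟨0, by omega⟩, fun μ _ _ => map_zero _⟩
      obtain ⟨ν, h1, h2, h3, h4⟩ := hex t ht' i
      rw [← h4 q hq]
      have h5 : Ideal.span (M t : Set (Poly F m n)) ⊔ J ⊔ Ideal.span {p} ≤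
          RingHom.ker (eval (point F ν)) := by
        refine sup_le (sup_le ?_ ?_) ?_
        · rw [Ideal.span_le]
          intro r hr
          refine RingHom.mem_ker.2 ?_
          rw [h3 r hr]
          exact ih' r hr
        · refine hJ.trans ?_
          unfold matchIdeal
          exact iInf₂_le ν h1
        · rw [Ideal.span_le]
          intro r hr
          rw [Set.mem_singleton_iff] at hr
          subst hr
          exact RingHom.mem_ker.2 (hi ν h1 h2)
      exact RingHom.mem_ker.1 (h5 (hstep q hq))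
  have hone := key l le_rfl 1 hM.one_mem
  have hlpos : 0 < l := by
    rcases Nat.eq_zero_or_pos l with h | h
    · exfalso
      have h1 := hM.one_mem
      rw [h, hM.zero] at h1
      exact absurd h1 (Finset.notMem_empty _)
    · exact h
  obtain ⟨ν, _, _, _, h4⟩ := hex (l - 1) (by omega) ⟨0, by omega⟩
  have h5 : l - 1 + 1 = l := by omega
  rw [h5] at h4
  have h6 := h4 1 hM.one_mem
  rw [hone, map_one] at h6
  exact one_ne_zero h6

theorem bound' {β : Finset (Fin m × Fin n)} (hβ : IsPartialMatching β) {k : ℕ} (hk : 0 < k)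
    (hmn : n < m) (J : Ideal (Poly F m n)) (P : Set (Poly F m n))
    (hJ : J ≤ matchIdeal F m n) (hP : P ⊆ pigeonAxioms F m n) (l : ℕ)
    (M : ℕ → Finset (Poly F m n)) (hM : IsRefutation J P l M)
    (hT : ∀ t ≤ l, ∀ d ∈ monos (M t), Alive β d →
      Light β k d ∨ NearlyFull β k d ∨ Rich β (2 * (k + 1) * MSp l M) d) :
    n ≤ β.card + 2 * (k + 1) * MSp l M := by
  classical
  by_contra hcon
  push Not at hcon
  obtain ⟨t, ht, h⟩ := bound hβ hmn J P hJ hP l M hM _ hcon
  have h1 := le_MSp (M := M) ht.le
  have h2 := le_MSp (M := M) (show t + 1 ≤ l by omega)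
  have h3 := card_union_le (monos (M t)) (monos (M (t + 1)))
  have h4 : ∑ d ∈ monos (M t) ∪ monos (M (t + 1)),
      (1 + weight β (2 * (k + 1) * MSp l M) d) ≤
      (monos (M t) ∪ monos (M (t + 1))).card • (1 + k) := by
    refine sum_le_card_nsmul _ _ _ fun d hd => ?_
    refine Nat.add_le_add_left (weight_le hk ?_) _
    rw [mem_union] at hd
    rcases hd with hd | hd
    · exact hT t ht.le d hd
    · exact hT (t + 1) (by omega) d hd
  rw [smul_eq_mul] at h4
  have h5 : (monos (M t) ∪ monos (M (t + 1))).card * (1 + k) ≤ (2 * MSp l M) * (1 + k) :=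
    Nat.mul_le_mul_right _ (by omega)
  have h6 : (2 * MSp l M) * (1 + k) = 2 * (k + 1) * MSp l M := by ring
  omega

end Proof

/-- Let `M 0, …, M l` be a semantic polynomial calculus refutation of the functional pigeonhole
principle with `m > n` pigeons and `n` holes over any field, for the conventions of the problem, or
more generally with the ideal of the Boolean axioms enlarged to all polynomials which vanish at all
partial matchings, and the axioms to all polynomials which vanish at all partial matchings that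
match some fixed pigeon. Let `β` be a partial matching.
(1) For each `T < n - |β|` there is a step `t` such that the sum of `1 + weight β T d` over the
monomials `d` of `M t` and `M (t + 1)` is greater than `T`.
(2) If, for some `k ≥ 1`, all monomials of all configurations which have the value one at `β` are
light or nearly full with this `k`, or rich with `T = 2 (k + 1) MSp`, then
`n ≤ |β| + 2 (k + 1) MSp`. -/
theorem result (F : Type*) [Field F] (m n : ℕ) (hmn : n < m) (l : ℕ)
    (M : ℕ → Finset (Poly F m n))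
    (hM : IsRefutation (boolIdeal F m n) (fPHP F m n) l M ∨
      IsRefutation (matchIdeal F m n) (pigeonAxioms F m n) l M)
    (β : Finset (Fin m × Fin n)) (hβ : IsPartialMatching β) :
    (∀ T : ℕ, β.card + T < n → ∃ t < l,
      T < ∑ d ∈ monos (M t) ∪ monos (M (t + 1)), (1 + weight β T d)) ∧
    (∀ k : ℕ, 0 < k →
      (∀ t ≤ l, ∀ d ∈ monos (M t), Alive β d →
        Light β k d ∨ NearlyFull β k d ∨ Rich β (2 * (k + 1) * MSp l M) d) →
      n ≤ β.card + 2 * (k + 1) * MSp l M) := by
  have hm : 0 < m := by omega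
  rcases hM with hM | hM
  · exact ⟨fun T hT => bound hβ hmn _ _ bool_le (fPHP_sub hm) l M hM T hT,
      fun k hk h => bound' hβ hk hmn _ _ bool_le (fPHP_sub hm) l M hM h⟩
  · exact ⟨fun T hT => bound hβ hmn _ _ le_rfl (fun _ h => h) l M hM T hT,
      fun k hk h => bound' hβ hk hmn _ _ le_rfl (fun _ h => h) l M hM h⟩

end Pool.Agent.Results.MP_96e433_lc.MiddleMonomials
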